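import Mathlib

set_option autoImplicit false

namespace Pool.Agent.N480.CS

open TopologicalSpace

/-- `E` has an action realization with underlying space `K`: a countable group acts continuously
on `K` and some Borel bijection from `X` onto `K` maps the `E`-classes onto the orbits. -/
def RealizedOn {X : Type} [MeasurableSpace X] (E : X → X → Prop) (K : Type) [TopologicalSpace K]
    [MeasurableSpace K] : Prop :=
  ∃ (G : Type) (_ : Group G) (_ : Countable G) (_ : MulAction G K) (_ : ContinuousConstSMul G K)
    (f : X ≃ᵐ K), ∀ x y : X, E x y ↔ ∃ g : G, g • f x = f y

/-- `E` admits a compact action realization. -/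
def CompactRealization {X : Type} [MeasurableSpace X] (E : X → X → Prop) : Prop :=
  ∃ (K : Type) (_ : TopologicalSpace K) (_ : CompactSpace K) (_ : MetrizableSpace K)
    (_ : MeasurableSpace K) (_ : BorelSpace K), RealizedOn E K

/-- `E` is a countable Borel equivalence relation. -/
structure IsCBER {X : Type} [MeasurableSpace X] (E : X → X → Prop) : Prop where
  equivalence : Equivalence E
  borel : MeasurableSet {p : X × X | E p.1 p.2}
  countable : ∀ x, {y | E x y}.Countable

end Pool.Agent.N480.CS
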