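import Mathlib
import Pool.Agent.N480.CS.Defs

set_option autoImplicit false

/-!
Project CS (helper480): compact action realizations on Cantor space. Statements of the parts.
-/

namespace Pool.Agent.N480.CS

open Set TopologicalSpace

/-- covering dimension at most `d` -/
def CovDim (K : Type) [TopologicalSpace K] (d : ℕ) : Prop :=
  ∀ (ι : Type) [Finite ι] (V : ι → Set K), (∀ i, IsOpen (V i)) → (⋃ i, V i) = univ →
    ∃ (κ : Type) (_ : Finite κ) (W : κ → Set K), (∀ j, IsOpen (W j)) ∧ (⋃ j, W j) = univ ∧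
      (∀ j, ∃ i, W j ⊆ V i) ∧ ∀ x, {j | x ∈ W j}.ncard ≤ d + 1

/-- maps to `ℝ^(d+1)` can be made nowhere zero by a small change -/
def Unst (K : Type) [TopologicalSpace K] (d : ℕ) : Prop :=
  ∀ φ : K → Fin (d + 1) → ℝ, Continuous φ → ∀ ε : ℝ, 0 < ε →
    ∃ ψ : K → Fin (d + 1) → ℝ, Continuous ψ ∧ (∀ x i, |ψ x i - φ x i| < ε) ∧ ∀ x, ψ x ≠ 0

/-- NRV -/
def S_NRV : Prop := ∀ (K : Type) [TopologicalSpace K] [CompactSpace K] [MetrizableSpace K]
  (d : ℕ), CovDim K d → Unst K d

/-- GEN -/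
def S_GEN : Prop := ∀ (G K : Type) [Group G] [Countable G] [TopologicalSpace K] [CompactSpace K]
  [MetrizableSpace K] [MulAction G K] [ContinuousConstSMul G K] (d : ℕ),
  (∀ (g : G) (x : K), g • x = x → g = 1) → Unst K d →
  ∃ B : ℕ → Set K, IsTopologicalBasis (range B) ∧
    ∀ (n : ℕ) (x : K), {g : G | g • x ∈ frontier (B n)}.Finite

/-- EXT: zero-dimensional extension, Borel isomorphic up to a part with a transversal -/
def S_EXT : Prop := ∀ (G K : Type) [Group G] [Countable G] [TopologicalSpace K] [CompactSpace K]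
  [MetrizableSpace K] [MeasurableSpace K] [BorelSpace K] [MulAction G K] [ContinuousConstSMul G K]
  (B : ℕ → Set K), IsTopologicalBasis (range B) →
  (∀ (n : ℕ) (x : K), {g : G | g • x ∈ frontier (B n)}.Finite) →
  ∃ (L : Type) (_ : TopologicalSpace L) (_ : CompactSpace L) (_ : MetrizableSpace L)
    (_ : TotallyDisconnectedSpace L) (_ : MeasurableSpace L) (_ : BorelSpace L) (_ : MulAction G L)
    (_ : ContinuousConstSMul G L) (s : K → L) (T : Set L), Measurable s ∧ Function.Injective s ∧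
      (∀ (g : G) (x : K), s (g • x) = g • s x) ∧ MeasurableSet T ∧ T ⊆ (range s)ᶜ ∧
      (∀ z : L, z ∉ range s → ∃ g : G, g • z ∈ T) ∧ ∀ z : L, {g : G | g • z ∈ T}.Finite

end Pool.Agent.N480.CS
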