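import Mathlib
import Pool.Agent.N480.CS.Defs
import Pool.Agent.N480.CS.Stm
import Pool.Agent.N480.CV.Fin0

set_option autoImplicit false

/-!
Project CS: the zero-dimensional extension.
-/

namespace Pool.Agent.N480.CS

open Set MeasureTheory TopologicalSpace Filter

namespace Ext

section

variable {G K : Type} [Group G] [TopologicalSpace K] [MulAction G K]

/-- the extension -/
def LL (G K : Type) [Group G] [TopologicalSpace K] [MulAction G K] (B : ℕ → Set K) :
    Set (K × (G → ℕ → Bool)) :=
  {p | ∀ (g : G) (n : ℕ), (p.2 g n = true → g⁻¹ • p.1 ∈ closure (B n)) ∧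
    (p.2 g n = false → g⁻¹ • p.1 ∉ B n)}

/-- the action on the extension -/
instance act (B : ℕ → Set K) : MulAction G (LL G K B) where
  smul h p := ⟨(h • p.1.1, fun g n => p.1.2 (h⁻¹ * g) n), fun g n => by
    have h1 := p.2 (h⁻¹ * g) n
    have h2 : (h⁻¹ * g)⁻¹ • p.1.1 = g⁻¹ • h • p.1.1 := by
      rw [mul_inv_rev, inv_inv, mul_smul]
    rw [h2] at h1
    exact h1⟩
  one_smul p := by
    apply Subtype.ext
    show ((1 : G) • p.1.1, fun g n => p.1.2 ((1 : G)⁻¹ * g) n) = p.1
    refine Prod.ext (one_smul _ _) ?_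
    funext g n
    simp
  mul_smul h k p := by
    apply Subtype.ext
    show ((h * k) • p.1.1, fun g n => p.1.2 ((h * k)⁻¹ * g) n) =
      (h • k • p.1.1, fun g n => p.1.2 (k⁻¹ * (h⁻¹ * g)) n)
    refine Prod.ext (mul_smul _ _ _) ?_
    funext g n
    simp [mul_assoc]

theorem smul_fst (B : ℕ → Set K) (h : G) (p : LL G K B) : (h • p).1.1 = h • p.1.1 := rfl

theorem smul_snd (B : ℕ → Set K) (h : G) (p : LL G K B) (g : G) (n : ℕ) :
    (h • p).1.2 g n = p.1.2 (h⁻¹ * g) n := rfl

open Classical in
/-- the section -/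
noncomputable def sec (B : ℕ → Set K) (x : K) : LL G K B :=
  ⟨(x, fun g n => decide (g⁻¹ • x ∈ B n)), fun g n => by
    constructor
    · intro h
      exact subset_closure (of_decide_eq_true h)
    · intro h
      exact of_decide_eq_false h⟩

theorem sec_fst (B : ℕ → Set K) (x : K) : (sec (G := G) B x).1.1 = x := rfl

open Classical in
theorem sec_snd (B : ℕ → Set K) (x : K) (g : G) (n : ℕ) :
    (sec (G := G) B x).1.2 g n = decide (g⁻¹ • x ∈ B n) := rfl

theorem sec_smul (B : ℕ → Set K) (g : G) (x : K) :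
    sec (G := G) B (g • x) = g • sec (G := G) B x := by
  apply Subtype.ext
  refine Prod.ext rfl ?_
  funext h n
  rw [sec_snd, smul_snd, sec_snd]
  congr 2
  rw [mul_inv_rev, inv_inv, mul_smul]

/-- the points with a wrong digit at `(1, n)` -/
def bad (B : ℕ → Set K) (n : ℕ) : Set (LL G K B) := {z | z.1.2 1 n = true ∧ z.1.1 ∉ B n}

/-- the transversal -/
def TT (B : ℕ → Set K) : Set (LL G K B) :=
  {z | ∃ n, z ∈ bad B n ∧ ∀ m < n, ∀ g : G, g • z ∉ bad B m}

theorem not_range (B : ℕ → Set K) (z : LL G K B) (hz : z ∉ range (sec (G := G) B)) :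
    ∃ n, ∃ g : G, g • z ∈ bad B n := by
  classical
  by_contra h
  push Not at h
  apply hz
  refine ⟨z.1.1, ?_⟩
  apply Subtype.ext
  refine Prod.ext rfl ?_
  funext g n
  rw [sec_snd]
  have h1 := h n g⁻¹
  have h2 : ¬ (z.1.2 g n = true ∧ g⁻¹ • z.1.1 ∉ B n) := by
    intro h3
    apply h1
    refine ⟨?_, h3.2⟩
    rw [smul_snd, inv_inv, mul_one]
    exact h3.1
  cases h4 : z.1.2 g n
  · exact decide_eq_false ((z.2 g n).2 h4)
  · refine decide_eq_true ?_
    by_contra h5
    exact h2 ⟨h4, h5⟩

theorem bad_sec (B : ℕ → Set K) (n : ℕ) (x : K) : sec (G := G) B x ∉ bad B n := by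
  classical
  rintro ⟨h1, h2⟩
  rw [sec_snd, inv_one, one_smul] at h1
  exact h2 (of_decide_eq_true h1)

theorem TT_not_range (B : ℕ → Set K) : TT (G := G) B ⊆ (range (sec (G := G) B))ᶜ := by
  rintro z ⟨n, h1, -⟩ ⟨x, rfl⟩
  exact bad_sec B n x h1

theorem TT_complete (B : ℕ → Set K) (z : LL G K B) (hz : z ∉ range (sec (G := G) B)) :
    ∃ g : G, g • z ∈ TT B := by
  classical
  have hex := not_range B z hz
  obtain ⟨g, hg⟩ := Nat.find_spec hex
  refine ⟨g, Nat.find hex, hg, fun m hm h hh => ?_⟩
  rw [← mul_smul] at hh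
  exact Nat.find_min hex hm ⟨_, hh⟩

theorem TT_finite (B : ℕ → Set K) (hB : ∀ n, IsOpen (B n))
    (hfin : ∀ (n : ℕ) (x : K), {g : G | g • x ∈ frontier (B n)}.Finite) (z : LL G K B) :
    {g : G | g • z ∈ TT B}.Finite := by
  classical
  by_cases hex : ∃ n, ∃ g : G, g • z ∈ bad B n
  · refine (hfin (Nat.find hex) z.1.1).subset ?_
    rintro g ⟨n, h1, h2⟩
    have h3 : n = Nat.find hex := by
      refine le_antisymm ?_ (Nat.find_min' hex ⟨g, h1⟩)
      by_contra hlt
      push Not at hlt
      obtain ⟨k, hk⟩ := Nat.find_spec hex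
      apply h2 _ hlt (k * g⁻¹)
      rwa [← mul_smul, inv_mul_cancel_right]
    rw [← h3]
    show g • z.1.1 ∈ frontier (B n)
    rw [(hB n).frontier_eq]
    refine ⟨?_, h1.2⟩
    have h4 := ((g • z).2 1 n).1 h1.1
    rwa [inv_one, one_smul] at h4
  · refine Set.finite_empty.subset ?_
    rintro g ⟨n, h1, -⟩
    exact hex ⟨n, g, h1⟩

theorem LL_closed [ContinuousConstSMul G K] (B : ℕ → Set K) (hB : ∀ n, IsOpen (B n)) :
    IsClosed (LL G K B) := by
  have : LL G K B = ⋂ (g : G) (n : ℕ), (({p : K × (G → ℕ → Bool) | p.2 g n = false} ∪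
      {p | g⁻¹ • p.1 ∈ closure (B n)}) ∩ ({p | p.2 g n = true} ∪ {p | g⁻¹ • p.1 ∉ B n})) := by
    ext p
    simp only [mem_iInter, mem_inter_iff, mem_union]
    constructor
    · intro h g n
      obtain ⟨h1, h2⟩ := h g n
      cases h3 : p.2 g n
      · exact ⟨Or.inl h3, Or.inr (h2 h3)⟩
      · exact ⟨Or.inr (h1 h3), Or.inl h3⟩
    · intro h g n
      obtain ⟨h1, h2⟩ := h g n
      refine ⟨fun h3 => ?_, fun h3 => ?_⟩
      · rcases h1 with h1 | h1
        · have h1' : p.2 g n = false := h1
          rw [h1'] at h3; exact absurd h3 (by decide)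
        · exact h1
      · rcases h2 with h2 | h2
        · have h2' : p.2 g n = true := h2
          rw [h2'] at h3; exact absurd h3 (by decide)
        · exact h2
  rw [this]
  have hc : ∀ (g : G) (n : ℕ), Continuous fun p : K × (G → ℕ → Bool) => p.2 g n := fun g n =>
    (continuous_apply n).comp ((continuous_apply g).comp continuous_snd)
  have hc' : ∀ g : G, Continuous fun p : K × (G → ℕ → Bool) => g • p.1 := fun g =>
    (continuous_const_smul g).comp continuous_fst
  refine isClosed_iInter fun g => isClosed_iInter fun n => IsClosed.inter ?_ ?_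
  · exact (isClosed_discrete ({false} : Set Bool)).preimage (hc g n) |>.union
      (isClosed_closure.preimage (hc' g⁻¹))
  · exact (isClosed_discrete ({true} : Set Bool)).preimage (hc g n) |>.union
      ((hB n).isClosed_compl.preimage (hc' g⁻¹))

end

end Ext

open Ext in
theorem t_EXT : S_EXT := by
  classical
  intro G K _ _ _ _ _ _ _ _ _ B hb hfin
  have hB : ∀ n, IsOpen (B n) := fun n => hb.isOpen (mem_range_self n)
  have hsc : SecondCountableTopology K := by
    let := metrizableSpaceMetric K
    infer_instance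
  have hcl := LL_closed (G := G) (K := K) B hB
  have i1 : CompactSpace (LL G K B) := isCompact_iff_compactSpace.1 hcl.isCompact
  have i2 : MetrizableSpace (LL G K B) := inferInstance
  have i0 : BorelSpace (G → ℕ → Bool) := Pi.borelSpace
  have i3 : BorelSpace (LL G K B) := inferInstance
  have i4 : ContinuousConstSMul G (LL G K B) := by
    refine ⟨fun h => Continuous.subtype_mk ?_ _⟩
    refine Continuous.prodMk ?_ ?_
    · exact (continuous_const_smul h).comp (continuous_fst.comp continuous_subtype_val)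
    · refine continuous_pi fun g => continuous_pi fun n => ?_
      exact (continuous_apply n).comp ((continuous_apply (h⁻¹ * g)).comp
        (continuous_snd.comp continuous_subtype_val))
  have i5 : TotallyDisconnectedSpace (LL G K B) := by
    refine ⟨isTotallyDisconnected_of_image (f := fun p : LL G K B => p.1.2)
      (continuous_snd.comp continuous_subtype_val).continuousOn ?_
      (isTotallyDisconnected_of_totallyDisconnectedSpace _)⟩
    intro p q hpq
    have hpq' : p.1.2 = q.1.2 := hpq
    apply Subtype.ext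
    refine Prod.ext ?_ hpq'
    by_contra hne
    obtain ⟨U, V, hU, hV, hxU, hyV, hUV⟩ := t2_separation hne
    obtain ⟨W, ⟨n, rfl⟩, hxW, hWU⟩ := hb.exists_subset_of_mem_open hxU hU
    have h1 : q.1.1 ∉ closure (B n) := by
      intro hq
      obtain ⟨z, hz1, hz2⟩ := mem_closure_iff.1 hq V hV hyV
      exact Set.disjoint_left.1 hUV (hWU hz2) hz1
    cases h2 : p.1.2 1 n
    · have h3 := (p.2 1 n).2 h2
      rw [inv_one, one_smul] at h3
      exact h3 hxW
    · rw [hpq'] at h2
      have h3 := (q.2 1 n).1 h2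
      rw [inv_one, one_smul] at h3
      exact h1 h3
  refine ⟨LL G K B, inferInstance, i1, i2, i5, inferInstance, i3, inferInstance, i4,
    sec B, TT B, ?_, ?_, sec_smul B, ?_, TT_not_range B, TT_complete B, TT_finite B hB hfin⟩
  · refine Measurable.subtype_mk ?_
    refine measurable_id.prodMk ?_
    refine measurable_pi_iff.2 fun g => measurable_pi_iff.2 fun n => ?_
    have hm : MeasurableSet {x : K | g⁻¹ • x ∈ B n} :=
      ((hB n).preimage (continuous_const_smul g⁻¹)).measurableSet
    refine measurable_to_bool ?_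
    have : (fun x : K => decide (g⁻¹ • x ∈ B n)) ⁻¹' {true} = {x : K | g⁻¹ • x ∈ B n} := by
      ext x
      simp
    rw [this]
    exact hm
  · intro x y hxy
    exact congrArg (fun z : LL G K B => z.1.1) hxy
  · have hbad : ∀ n, MeasurableSet (bad (G := G) B n) := by
      intro n
      have hc1 : Continuous fun z : LL G K B => z.1.2 1 := (continuous_apply (1 : G)).comp
        (continuous_snd.comp continuous_subtype_val)
      have hc : Continuous fun z : LL G K B => z.1.2 1 n := (continuous_apply n).comp hc1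
      have h1 : IsClosed {z : LL G K B | z.1.2 1 n = true} :=
        (isClosed_discrete ({true} : Set Bool)).preimage hc
      have h2 : IsClosed {z : LL G K B | z.1.1 ∉ B n} :=
        (hB n).isClosed_compl.preimage (continuous_fst.comp continuous_subtype_val)
      exact (h1.inter h2).measurableSet
    have : TT (G := G) B = ⋃ n, (bad B n ∩ ⋂ m : ℕ, ⋂ _ : m < n, ⋂ g : G,
        (fun z => g • z) ⁻¹' (bad (G := G) B m)ᶜ) := by
      ext z
      simp only [TT, mem_iUnion, mem_inter_iff, mem_iInter, mem_preimage, mem_compl_iff]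
      rfl
    rw [this]
    refine MeasurableSet.iUnion fun n => (hbad n).inter (MeasurableSet.iInter fun m =>
      MeasurableSet.iInter fun _ => MeasurableSet.iInter fun g => ?_)
    exact (continuous_const_smul g).measurable (hbad m).compl

end Pool.Agent.N480.CS
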