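import Mathlib
import Pool.Agent.N480.CS.Defs
import Pool.Agent.N480.CV.Fin2
import Pool.Agent.N480.CV.BAS
import Pool.Agent.N480.CV.RED
import Pool.Agent.H812R3.CantorChar

set_option autoImplicit false

/-!
Aperiodic relations with a compact action realization have one on a perfect space, and on Cantor
space if the given one is zero-dimensional.
-/

namespace Pool.Agent.N480.CS

open Set MeasureTheory TopologicalSpace Filter
open Pool.Agent.N480.CV

section scattered

variable {S : Type} [MeasurableSpace S] [StandardBorelSpace S] [Countable S]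

/-- an equivalence relation with infinite classes on a countable space is compressible and
hyperfinite -/
theorem countable_tame (E : S → S → Prop) (hE : Equivalence E) (hinf : ∀ x, {y | E x y}.Infinite) :
    ∃ F : ℕ → S → S → Prop, HF E F ∧ Cmp E := by
  classical
  obtain ⟨ι, hι⟩ := exists_injective_nat S
  let F : ℕ → S → S → Prop := fun n x y => x = y ∨ (E x y ∧ ι x ≤ n ∧ ι y ≤ n)
  have hF : HF E F := by
    refine ⟨?_, ?_, ?_, ?_, ?_⟩
    · intro n
      refine ⟨fun x => Or.inl rfl, ?_, ?_⟩
      · rintro x y (rfl | ⟨h1, h2, h3⟩)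
        · exact Or.inl rfl
        · exact Or.inr ⟨hE.symm h1, h3, h2⟩
      · rintro x y z (rfl | ⟨h1, h2, h3⟩) (rfl | ⟨h4, h5, h6⟩)
        · exact Or.inl rfl
        · exact Or.inr ⟨h4, h5, h6⟩
        · exact Or.inr ⟨h1, h2, h3⟩
        · exact Or.inr ⟨hE.trans h1 h4, h2, h6⟩
    · intro n
      exact (Set.to_countable _).measurableSet
    · intro n x
      refine Set.Finite.subset ((Set.finite_singleton x).union
        ((Set.finite_Iic n).preimage hι.injOn)) ?_
      rintro y (h | ⟨-, -, h⟩)
      · exact Or.inl h.symm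
      · exact Or.inr h
    · rintro n x y (h | ⟨h1, h2, h3⟩)
      · exact Or.inl h
      · exact Or.inr ⟨h1, by omega, by omega⟩
    · intro x y
      constructor
      · intro h
        exact ⟨max (ι x) (ι y), Or.inr ⟨h, le_max_left _ _, le_max_right _ _⟩⟩
      · rintro ⟨n, h | ⟨h, -, -⟩⟩
        · exact h ▸ hE.refl x
        · exact h
  refine ⟨F, hF, ?_⟩
  refine (t_BAS S E F hF).2.2.2 {t | ∀ y, E t y → ι t ≤ ι y} (Set.to_countable _).measurableSet
    hinf ?_ ?_
  · intro x
    refine Set.Subsingleton.finite ?_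
    rintro t ⟨h1, h2⟩ t' ⟨h3, h4⟩
    exact hι (le_antisymm (h1 t' (hE.trans (hE.symm h2) h4)) (h3 t (hE.trans (hE.symm h4) h2)))
  · intro x
    have hex : ∃ n, ∃ y, E x y ∧ ι y = n := ⟨ι x, x, hE.refl x, rfl⟩
    obtain ⟨y, hxy, hy⟩ := Nat.find_spec hex
    refine ⟨y, fun z hz => ?_, hxy⟩
    rw [hy]
    exact Nat.find_min' hex ⟨z, hE.trans hxy hz, rfl⟩

end scattered

section kernel

variable (G K : Type) [Group G] [TopologicalSpace K] [MulAction G K] [ContinuousConstSMul G K]

/-- the condensation points -/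
def Ker : SubMulAction G K where
  carrier := {z | ∀ U : Set K, IsOpen U → z ∈ U → ¬ U.Countable}
  smul_mem' := by
    intro g z hz U hU hgz hc
    refine hz ((fun x => g • x) ⁻¹' U) (hU.preimage (continuous_const_smul g)) hgz ?_
    exact hc.preimage (MulAction.injective g)

theorem ker_compl [SecondCountableTopology K] : ((Ker G K : Set K)ᶜ).Countable := by
  have : ((Ker G K : Set K)ᶜ) ⊆ ⋃₀ {U | U ∈ countableBasis K ∧ U.Countable} := by
    intro z hz
    have hz' : ¬ ∀ U : Set K, IsOpen U → z ∈ U → ¬ U.Countable := hz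
    push Not at hz'
    obtain ⟨U, hU, hzU, hc⟩ := hz'
    obtain ⟨V, hV, hzV, hVU⟩ := (isBasis_countableBasis K).exists_subset_of_mem_open hzU hU
    exact ⟨V, ⟨hV, hc.mono hVU⟩, hzV⟩
  refine Countable.mono this (Countable.sUnion ?_ fun U hU => hU.2)
  exact (countable_countableBasis K).mono fun U hU => hU.1

theorem ker_closed : IsClosed (Ker G K : Set K) := by
  rw [← isOpen_compl_iff, isOpen_iff_forall_mem_open]
  intro z hz
  have hz' : ¬ ∀ U : Set K, IsOpen U → z ∈ U → ¬ U.Countable := hz
  push Not at hz'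
  obtain ⟨U, hU, hzU, hc⟩ := hz'
  exact ⟨U, fun w hw hwK => hwK U hU hw hc, hU, hzU⟩

theorem ker_perfect [SecondCountableTopology K] (z : Ker G K) (U : Set (Ker G K)) (hU : IsOpen U)
    (hz : z ∈ U) : ∃ y ∈ U, y ≠ z := by
  obtain ⟨V, hV, rfl⟩ := isOpen_induced_iff.1 hU
  by_contra h
  push Not at h
  apply z.2 V hV hz
  refine Countable.mono (s₂ := (Ker G K : Set K)ᶜ ∪ {(z : K)}) ?_
    ((ker_compl G K).union (countable_singleton _))
  intro w hw
  by_cases hwK : w ∈ (Ker G K : Set K)
  · exact Or.inr (congrArg Subtype.val (h ⟨w, hwK⟩ hw))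
  · exact Or.inl hwK

end kernel

/-- on Cantor space -/
theorem RealizedOn.of_homeo {X : Type} [MeasurableSpace X] {E : X → X → Prop} {K L : Type}
    [TopologicalSpace K] [MeasurableSpace K] [BorelSpace K] [TopologicalSpace L]
    [MeasurableSpace L] [BorelSpace L] (h : RealizedOn E K) (φ : K ≃ₜ L) : RealizedOn E L := by
  obtain ⟨G, i1, i2, i3, i4, f, hf⟩ := h
  let act : MulAction G L :=
    { smul := fun g c => φ (g • φ.symm c)
      one_smul := by
        intro c
        show φ ((1 : G) • φ.symm c) = c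
        rw [one_smul, φ.apply_symm_apply]
      mul_smul := by
        intro g h c
        show φ ((g * h) • φ.symm c) = φ (g • φ.symm (φ (h • φ.symm c)))
        rw [φ.symm_apply_apply, mul_smul] }
  refine ⟨G, i1, i2, act, ⟨fun g => ?_⟩, f.trans φ.toMeasurableEquiv, fun x y => ?_⟩
  · exact φ.continuous.comp ((continuous_const_smul g).comp φ.symm.continuous)
  · rw [hf]
    refine exists_congr fun g => ?_
    show g • f x = f y ↔ φ (g • φ.symm (φ (f x))) = φ (f y)
    rw [φ.symm_apply_apply, φ.injective.eq_iff]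

theorem perfect_realization {X : Type} [MeasurableSpace X] [StandardBorelSpace X] [Uncountable X]
    (E : X → X → Prop) (hinf : ∀ x, {y | E x y}.Infinite) (K : Type) [TopologicalSpace K]
    [CompactSpace K] [MetrizableSpace K] [MeasurableSpace K] [BorelSpace K]
    (h : RealizedOn E K) :
    ∃ P : Set K, IsClosed P ∧ P.Nonempty ∧
      (∀ z : P, ∀ U : Set P, IsOpen U → z ∈ U → ∃ y ∈ U, y ≠ z) ∧ RealizedOn E P := by
  classical
  obtain ⟨G, i1, i2, i3, i4, f, hf⟩ := h
  have hsc : SecondCountableTopology K := by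
    let := metrizableSpaceMetric K
    infer_instance
  have hK : StandardBorelSpace K := by
    let := metrizableSpaceMetric K
    infer_instance
  have hcl := ker_closed G K
  have hco := ker_compl G K
  have hPm : MeasurableSet (Ker G K : Set K) := hcl.measurableSet
  have hne : (Ker G K : Set K).Nonempty := by
    by_contra h
    rw [not_nonempty_iff_eq_empty] at h
    rw [h, compl_empty] at hco
    have h1 : Countable K := countable_univ_iff.1 hco
    exact not_countable (α := X) (f.injective.countable)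
  have hEq : ∀ x y : K, E (f.symm x) (f.symm y) ↔ Orb G x y := by
    intro x y
    rw [hf, f.apply_symm_apply, f.apply_symm_apply]
    rfl
  have horb : ∀ z : K, {y | Orb G z y}.Infinite := by
    intro z
    have h1 := hinf (f.symm z)
    have h2 : {y | Orb G z y} = f '' {y | E (f.symm z) y} := by
      ext y
      constructor
      · intro hy
        exact ⟨f.symm y, (hEq z y).2 hy, f.apply_symm_apply y⟩
      · rintro ⟨x, hx, rfl⟩
        rw [← f.symm_apply_apply x] at hx
        exact (hEq z (f x)).1 hx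
    rw [h2]
    exact h1.image f.injective.injOn
  -- the kernel
  let P := Ker G K
  have c1 : CompactSpace P := isCompact_iff_compactSpace.1 hcl.isCompact
  have c2 : MetrizableSpace P := inferInstanceAs (MetrizableSpace (Ker G K : Set K))
  have c3 : BorelSpace P := inferInstanceAs (BorelSpace (Ker G K : Set K))
  have c4 : Nonempty P := hne.to_subtype
  have c5 : StandardBorelSpace P := hPm.standardBorel
  have c6 : ContinuousConstSMul G P :=
    ⟨fun g => ((continuous_const_smul g).comp continuous_subtype_val).subtype_mk _⟩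
  have hPinv : ∀ x y : K, Orb G x y → x ∈ P → y ∈ P := by
    rintro x _ ⟨g, rfl⟩ hx
    exact P.smul_mem g hx
  have hPorb : ∀ x y : P, Orb G x y ↔ Orb G (x : K) (y : K) := by
    intro x y
    constructor
    · rintro ⟨g, rfl⟩; exact ⟨g, rfl⟩
    · rintro ⟨g, hg⟩; exact ⟨g, Subtype.ext hg⟩
  have hPinf : ∀ w : P, {v | ∃ g : G, g • w = v}.Infinite := by
    intro w
    have h1 := horb (w : K)
    have h2 : {y : K | Orb G (w : K) y} = Subtype.val '' {v : P | ∃ g : G, g • w = v} := by
      ext y
      constructor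
      · rintro ⟨g, rfl⟩
        exact ⟨g • w, ⟨g, rfl⟩, rfl⟩
      · rintro ⟨_, ⟨g, rfl⟩, rfl⟩
        exact ⟨g, rfl⟩
    rw [h2] at h1
    exact h1.of_image _
  -- the rest
  let S : Set K := ((Ker G K : Set K))ᶜ
  have hSm : MeasurableSet S := hPm.compl
  have s1 : StandardBorelSpace S := hSm.standardBorel
  have s2 : Countable S := hco.to_subtype
  let R : S → S → Prop := fun x y => Orb G (x : K) (y : K)
  have hoe : Equivalence (Orb G : K → K → Prop) := orb_equivalence
  have hR : Equivalence R := ⟨fun x => hoe.refl _, fun h => hoe.symm h, fun h h' => hoe.trans h h'⟩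
  have hRinf : ∀ x, {y | R x y}.Infinite := by
    intro x
    have h1 := horb (x : K)
    have h2 : {y : K | Orb G (x : K) y} = Subtype.val '' {y : S | R x y} := by
      ext y
      constructor
      · intro hy
        exact ⟨⟨y, fun hyP => x.2 (hPinv _ _ (hoe.symm hy) hyP)⟩, hy, rfl⟩
      · rintro ⟨y, hy, rfl⟩
        exact hy
    rw [h2] at h1
    exact h1.of_image _
  obtain ⟨F, hF, hC⟩ := countable_tame R hR hRinf
  obtain ⟨c, c1', c2', c3'⟩ := t_RED S R F hF
  obtain ⟨st, t1, t2, t3⟩ := hC
  -- involutions and a copy of eventual equality on the kernel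
  have hmeas : MeasurableSet {p : P × P | Orb G p.1 p.2} := by
    have : {p : P × P | Orb G p.1 p.2} = ⋃ g : G, {p : P × P | g • p.1 = p.2} := by
      ext p; simp only [mem_iUnion]; rfl
    rw [this]
    exact MeasurableSet.iUnion fun g => measurableSet_eq_fun
      ((continuous_const_smul g).measurable.comp measurable_fst) measurable_snd
  have hct : ∀ y : P, {y' | Orb G y y'}.Countable := fun y =>
    Set.countable_range (fun g : G => g • y)
  obtain ⟨s, e1, e2, e3⟩ := Pool.Agent.H139R3.FM.feldman_moore (Orb G : P → P → Prop)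
    orb_equivalence hmeas hct
  obtain ⟨j, j1, j2, j3⟩ := Pool.Agent.TH286.CR.glimm_effros s e1 e2
    (Orb G : P → P → Prop) orb_equivalence e3 (t_NS G P hPinf)
  obtain ⟨h, hh⟩ := Pool.Agent.TH635.CRAbs.absorb s e1 e2 (Orb G : P → P → Prop)
    orb_equivalence e3 j j1 j2 j3 R c c1' c2' c3' st t1 t2 t3
  -- the isomorphism
  let e : P ⊕ S ≃ᵐ K := MeasurableEquiv.sumCompl (s := (Ker G K : Set K)) hPm
  have he1 : ∀ x : P, e (Sum.inl x) = (x : K) := fun x => rfl
  have he2 : ∀ x : S, e (Sum.inr x) = (x : K) := fun x => rfl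
  have he : ∀ a b : P ⊕ S, Orb G (e a) (e b) ↔
      Sum.LiftRel (Orb G : P → P → Prop) R a b := by
    rintro (a | a) (b | b)
    · rw [Sum.liftRel_inl_inl, he1, he1]
      exact (hPorb a b).symm
    · simp only [Sum.not_liftRel_inl_inr, iff_false]
      rw [he1, he2]
      exact fun h => b.2 (hPinv _ _ h a.2)
    · simp only [Sum.not_liftRel_inr_inl, iff_false]
      rw [he1, he2]
      exact fun h => a.2 (hPinv _ _ (hoe.symm h) b.2)
    · rw [Sum.liftRel_inr_inr, he2, he2]
  refine ⟨(Ker G K : Set K), hcl, hne, fun z U hU hz => ker_perfect G K z U hU hz, ?_⟩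
  refine ⟨G, i1, i2, inferInstanceAs (MulAction G P), c6, (f.trans e.symm).trans h, fun x y => ?_⟩
  have h1 : E x y ↔ Orb G (f x) (f y) := by
    rw [hf]; rfl
  have h2 := he (e.symm (f x)) (e.symm (f y))
  rw [e.apply_symm_apply, e.apply_symm_apply] at h2
  rw [h1, h2, hh]
  rfl

/-- a compact metrizable totally disconnected space embeds in Cantor space -/
theorem exists_cantor_emb (Z : Type) [TopologicalSpace Z] [CompactSpace Z] [MetrizableSpace Z]
    [TotallyDisconnectedSpace Z] :
    ∃ e : Z → (ℕ → Bool), Continuous e ∧ Function.Injective e := by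
  classical
  have hsc : SecondCountableTopology Z := by
    let := metrizableSpaceMetric Z
    infer_instance
  obtain ⟨s, hs, hcs, hb⟩ :=
    (isTopologicalBasis_isClopen (X := Z)).exists_countable
  rcases isEmpty_or_nonempty Z with hZ | hZ
  · exact ⟨fun z => isEmptyElim z, continuous_of_const fun z => isEmptyElim z,
      fun z => isEmptyElim z⟩
  have hsne : s.Nonempty := by
    obtain ⟨z⟩ := hZ
    obtain ⟨V, hV, -, -⟩ := hb.exists_subset_of_mem_open (mem_univ z) isOpen_univ
    exact ⟨V, hV⟩
  obtain ⟨B, hB⟩ := hcs.exists_eq_range hsne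
  have hBc : ∀ n, IsClopen (B n) := fun n => hs (by rw [hB]; exact mem_range_self n)
  refine ⟨fun z n => (B n).boolIndicator z, ?_, ?_⟩
  · refine continuous_pi fun n => ?_
    exact (continuous_boolIndicator_iff_isClopen (B n)).2 (hBc n)
  · intro x y hxy
    by_contra hne
    obtain ⟨V, hV, hxV, hVy⟩ := hb.exists_subset_of_mem_open
      (show x ∈ ({y}ᶜ : Set Z) from hne) isOpen_compl_singleton
    rw [hB] at hV
    obtain ⟨n, rfl⟩ := hV
    have h1 : (B n).boolIndicator x = (B n).boolIndicator y := congrFun hxy n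
    rw [(Set.mem_iff_boolIndicator _ _).1 hxV] at h1
    exact hVy ((Set.mem_iff_boolIndicator _ _).2 h1.symm) rfl

theorem cantor_realization {X : Type} [MeasurableSpace X] [StandardBorelSpace X] [Uncountable X]
    (E : X → X → Prop) (hinf : ∀ x, {y | E x y}.Infinite) (K : Type) [TopologicalSpace K]
    [CompactSpace K] [MetrizableSpace K] [TotallyDisconnectedSpace K] [MeasurableSpace K]
    [BorelSpace K] (h : RealizedOn E K) : RealizedOn E (ℕ → Bool) := by
  obtain ⟨P, h1, h2, h3, h4⟩ := perfect_realization E hinf K h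
  have c1 : CompactSpace P := isCompact_iff_compactSpace.1 h1.isCompact
  have c2 : Nonempty P := h2.to_subtype
  obtain ⟨e, he, hi⟩ := exists_cantor_emb P
  obtain ⟨φ⟩ := Pool.Agent.H812R3.CantorChar.cantor_char e he hi h3
  exact h4.of_homeo φ

end Pool.Agent.N480.CS
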