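import Mathlib
import Pool.Agent.N480.CS.Defs
import Pool.Agent.N480.CS.Stm
import Pool.Agent.N480.CS.Ext
import Pool.Agent.N480.CS.Pos
import Pool.Agent.N480.CV.ABS

set_option autoImplicit false

/-!
Project CS: a compact action with a basis of open sets whose frontiers are met only finitely often
is Borel isomorphic, up to the choice of the group action, to an action on Cantor space.
-/

namespace Pool.Agent.N480.CS

open Set MeasureTheory TopologicalSpace Filter
open Pool.Agent.N480.CV

/-- Hilbert's hotel -/
theorem hotel {K R : Type} [MeasurableSpace K] [StandardBorelSpace K] [MeasurableSpace R]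
    [StandardBorelSpace R] (E : K → K → Prop) (F : R → R → Prop) (hE : Equivalence E)
    (he : IEmb (fun p q : R × ℕ => F p.1 q.1 ∧ p.2 = q.2) E) : IEmb (Sum.LiftRel E F) E := by
  classical
  obtain ⟨e, e1, e2, e3, e4⟩ := he
  rcases isEmpty_or_nonempty R with hR | hR
  · refine ⟨Sum.elim id isEmptyElim, measurable_id.sumElim (measurable_of_empty _), ?_, ?_, ?_⟩
    · rintro (a | a) (b | b) h
      · exact congrArg Sum.inl h
      · exact isEmptyElim b
      · exact isEmptyElim a
      · exact isEmptyElim a
    · rintro (a | a) (b | b)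
      · rw [Sum.liftRel_inl_inl]; rfl
      · exact isEmptyElim b
      · exact isEmptyElim a
      · exact isEmptyElim a
    · rintro (a | a) y h
      · exact ⟨Sum.inl y, rfl⟩
      · exact isEmptyElim a
  · have hme := e1.measurableEmbedding e2
    have hinv : ∀ k y, k ∈ range e → E k y → y ∈ range e := by
      rintro _ y ⟨p, rfl⟩ h
      exact e4 p y h
    obtain ⟨σ, hσ⟩ : ∃ σ : K → K, σ = fun k => if k ∈ range e then
      e ((hme.invFun k).1, (hme.invFun k).2 + 1) else k := ⟨_, rfl⟩
    have σ1 : ∀ r n, σ (e (r, n)) = e (r, n + 1) := by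
      intro r n
      have h1 : hme.invFun (e (r, n)) = (r, n) := hme.leftInverse_invFun _
      rw [hσ]
      simp only [mem_range_self, if_true, h1]
    have σ2 : ∀ k, k ∉ range e → σ k = k := by
      intro k hk
      rw [hσ]
      simp only [hk, if_false]
    have σm : Measurable σ := by
      rw [hσ]
      refine Measurable.ite hme.measurableSet_range ?_ measurable_id
      refine e1.comp ?_
      exact (measurable_fst.comp hme.measurable_invFun).prodMk
        ((measurable_from_nat (f := fun n : ℕ => n + 1)).comp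
          (measurable_snd.comp hme.measurable_invFun))
    refine ⟨Sum.elim σ (fun r => e (r, 0)), ?_, ?_, ?_, ?_⟩
    · exact σm.sumElim (e1.comp (measurable_id.prodMk measurable_const))
    · rintro (a | a) (b | b) h
      · have h' : σ a = σ b := h
        by_cases ha : a ∈ range e <;> by_cases hb : b ∈ range e
        · obtain ⟨⟨r, n⟩, rfl⟩ := ha
          obtain ⟨⟨q, m⟩, rfl⟩ := hb
          rw [σ1, σ1] at h'
          have h1 := e2 h'
          simp only [Prod.mk.injEq] at h1
          rw [h1.1, show n = m by omega]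
        · obtain ⟨⟨r, n⟩, rfl⟩ := ha
          rw [σ1, σ2 b hb] at h'
          exact absurd ⟨_, h'⟩ hb
        · obtain ⟨⟨q, m⟩, rfl⟩ := hb
          rw [σ1, σ2 a ha] at h'
          exact absurd ⟨_, h'.symm⟩ ha
        · rw [σ2 a ha, σ2 b hb] at h'
          rw [h']
      · exfalso
        have h' : σ a = e (b, 0) := h
        by_cases ha : a ∈ range e
        · obtain ⟨⟨r, n⟩, rfl⟩ := ha
          rw [σ1] at h'
          have h1 := e2 h'
          simp only [Prod.mk.injEq] at h1
          omega
        · rw [σ2 a ha] at h'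
          exact ha ⟨_, h'.symm⟩
      · exfalso
        have h' : e (a, 0) = σ b := h
        by_cases hb : b ∈ range e
        · obtain ⟨⟨r, n⟩, rfl⟩ := hb
          rw [σ1] at h'
          have h1 := e2 h'
          simp only [Prod.mk.injEq] at h1
          omega
        · rw [σ2 b hb] at h'
          exact hb ⟨_, h'⟩
      · have h' : e (a, 0) = e (b, 0) := h
        have h1 := e2 h'
        simp only [Prod.mk.injEq] at h1
        rw [h1.1]
    · rintro (a | a) (b | b)
      · rw [Sum.liftRel_inl_inl]
        show E a b ↔ E (σ a) (σ b)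
        by_cases ha : a ∈ range e <;> by_cases hb : b ∈ range e
        · obtain ⟨⟨r, n⟩, rfl⟩ := ha
          obtain ⟨⟨q, m⟩, rfl⟩ := hb
          rw [σ1, σ1, ← e3, ← e3]
          simp
        · have h1 : ¬ E a b := fun h => hb (hinv _ _ ha h)
          have h2 : ¬ E (σ a) (σ b) := by
            rw [σ2 b hb]
            obtain ⟨⟨r, n⟩, rfl⟩ := ha
            rw [σ1]
            exact fun h => hb (hinv _ _ ⟨_, rfl⟩ h)
          exact iff_of_false h1 h2
        · have h1 : ¬ E a b := fun h => ha (hinv _ _ hb (hE.symm h))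
          have h2 : ¬ E (σ a) (σ b) := by
            rw [σ2 a ha]
            obtain ⟨⟨r, n⟩, rfl⟩ := hb
            rw [σ1]
            exact fun h => ha (hinv _ _ ⟨_, rfl⟩ (hE.symm h))
          exact iff_of_false h1 h2
        · rw [σ2 a ha, σ2 b hb]
      · simp only [Sum.not_liftRel_inl_inr, false_iff]
        show ¬ E (σ a) (e (b, 0))
        by_cases ha : a ∈ range e
        · obtain ⟨⟨r, n⟩, rfl⟩ := ha
          rw [σ1, ← e3]
          simp
        · rw [σ2 a ha]
          exact fun h => ha (hinv _ _ ⟨_, rfl⟩ (hE.symm h))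
      · simp only [Sum.not_liftRel_inr_inl, false_iff]
        show ¬ E (e (a, 0)) (σ b)
        by_cases hb : b ∈ range e
        · obtain ⟨⟨r, n⟩, rfl⟩ := hb
          rw [σ1, ← e3]
          simp
        · rw [σ2 b hb]
          exact fun h => hb (hinv _ _ ⟨_, rfl⟩ h)
      · rw [Sum.liftRel_inr_inr]
        show F a b ↔ E (e (a, 0)) (e (b, 0))
        rw [← e3]
        simp
    · rintro (a | a) y h
      · have h' : E (σ a) y := h
        by_cases ha : a ∈ range e
        · obtain ⟨⟨r, n⟩, rfl⟩ := ha
          rw [σ1] at h'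
          obtain ⟨⟨q, m⟩, rfl⟩ := e4 _ _ h'
          have h1 := (e3 _ _).2 h'
          simp only at h1
          refine ⟨Sum.inl (e (q, n)), ?_⟩
          show σ (e (q, n)) = e (q, m)
          rw [σ1, h1.2]
        · rw [σ2 a ha] at h'
          have hy : y ∉ range e := fun hy => ha (hinv _ _ hy (hE.symm h'))
          exact ⟨Sum.inl y, σ2 y hy⟩
      · have h' : E (e (a, 0)) y := h
        obtain ⟨⟨q, m⟩, rfl⟩ := e4 _ _ h'
        have h1 := (e3 _ _).2 h'
        simp only at h1
        refine ⟨Sum.inr q, ?_⟩
        show e (q, 0) = e (q, m)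
        rw [h1.2]

/-- a space times the natural numbers, with the action on the first coordinate -/
def ZN (R : Type) : Type := R × ℕ

instance (R : Type) [MeasurableSpace R] : MeasurableSpace (ZN R) :=
  inferInstanceAs (MeasurableSpace (R × ℕ))

instance (R : Type) [MeasurableSpace R] [StandardBorelSpace R] : StandardBorelSpace (ZN R) :=
  inferInstanceAs (StandardBorelSpace (R × ℕ))

instance (G R : Type) [Group G] [MulAction G R] : MulAction G (ZN R) where
  smul g p := (g • p.1, p.2)
  one_smul p := Prod.ext (one_smul G p.1) rfl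
  mul_smul g h p := Prod.ext (mul_smul g h p.1) rfl

/-- the extension has an isomorphic orbit relation -/
theorem ext_iso (G K L : Type) [Group G] [Countable G] [TopologicalSpace K] [CompactSpace K]
    [MetrizableSpace K] [MeasurableSpace K] [BorelSpace K] [MulAction G K]
    [ContinuousConstSMul G K] [Nonempty K] (hinf : ∀ z : K, {y | ∃ g : G, g • z = y}.Infinite)
    [TopologicalSpace L] [CompactSpace L] [MetrizableSpace L] [MeasurableSpace L] [BorelSpace L]
    [MulAction G L] [ContinuousConstSMul G L] (s : K → L) (T : Set L) (hs : Measurable s)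
    (hsi : Function.Injective s) (hse : ∀ (g : G) (x : K), s (g • x) = g • s x)
    (hT : MeasurableSet T) (hTr : T ⊆ (range s)ᶜ)
    (hTc : ∀ z : L, z ∉ range s → ∃ g : G, g • z ∈ T) (hTf : ∀ z : L, {g : G | g • z ∈ T}.Finite) :
    Iso (Orb G : K → K → Prop) (Orb G : L → L → Prop) := by
  classical
  have hK : StandardBorelSpace K := by
    let := metrizableSpaceMetric K
    infer_instance
  have hL : StandardBorelSpace L := by
    let := metrizableSpaceMetric L
    infer_instance
  have hG : Infinite G := by
    obtain ⟨z⟩ := (inferInstance : Nonempty K)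
    by_contra h
    rw [not_infinite_iff_finite] at h
    exact hinf z (Set.finite_range (fun g : G => g • z))
  have hgm : ∀ g : G, Measurable fun z : L => g • z := fun g =>
    (continuous_const_smul g).measurable
  have hrm : MeasurableSet (range s) := (hs.measurableEmbedding hsi).measurableSet_range
  -- the rest
  let R : SubMulAction G L :=
    { carrier := (range s)ᶜ
      smul_mem' := by
        rintro g z hz ⟨x, hx⟩
        exact hz ⟨g⁻¹ • x, by rw [hse, hx, inv_smul_smul]⟩ }
  have hRs : StandardBorelSpace R := hrm.compl.standardBorel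
  have hRgm : ∀ g : G, Measurable fun z : R => g • z := fun g =>
    ((hgm g).comp measurable_subtype_coe).subtype_mk
  have hRinf : ∀ z : R, {y | ∃ g : G, g • z = y}.Infinite := by
    intro z hfin
    obtain ⟨k, hk⟩ := hTc z z.2
    have hf1 : {g : G | g • z = k • z}.Finite := by
      refine (hTf (z : L)).subset ?_
      intro g hg
      have hg' : g • z = k • z := hg
      have h1 : g • (z : L) = k • (z : L) := congrArg Subtype.val hg'
      show g • (z : L) ∈ T
      rw [h1]; exact hk
    have hf2 : ∀ h : G, {g : G | g • z = h • z}.Finite := by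
      intro h
      refine (hf1.image fun g => h * k⁻¹ * g).subset ?_
      intro g hg
      have hg' : g • z = h • z := hg
      refine ⟨k * h⁻¹ * g, ?_, by group⟩
      show (k * h⁻¹ * g) • z = k • z
      rw [mul_smul, mul_smul, hg', inv_smul_smul]
    have hf3 : (univ : Set G).Finite := by
      have : (univ : Set G) = ⋃ y ∈ {y | ∃ g : G, g • z = y}, {g : G | g • z = y} := by
        ext g
        simp only [mem_univ, true_iff, mem_iUnion]
        exact ⟨g • z, ⟨g, rfl⟩, rfl⟩
      rw [this]
      refine hfin.biUnion ?_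
      rintro y ⟨h, rfl⟩
      exact hf2 h
    exact Set.infinite_univ hf3
  -- the transversal
  let r : L → ℝ := embeddingReal L
  have hr := measurableEmbedding_embeddingReal L
  let B : Set L := {t | t ∈ T ∧ ∀ g : G, g • t ∈ T → r t ≤ r (g • t)}
  have hB : MeasurableSet B := by
    have : B = T ∩ ⋂ g : G, ((fun t => g • t) ⁻¹' Tᶜ ∪ {t | r t ≤ r (g • t)}) := by
      ext t
      simp only [B, mem_inter_iff, mem_iInter, mem_union]
      constructor
      · rintro ⟨h1, h2⟩
        refine ⟨h1, fun g => ?_⟩
        by_cases hg : g • t ∈ T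
        · exact Or.inr (h2 g hg)
        · exact Or.inl hg
      · rintro ⟨h1, h2⟩
        refine ⟨h1, fun g hg => ?_⟩
        rcases h2 g with h3 | h3
        · exact absurd hg h3
        · exact h3
    rw [this]
    exact hT.inter (MeasurableSet.iInter fun g => (hgm g hT.compl).union
      (measurableSet_le hr.measurable (hr.measurable.comp (hgm g))))
  have hBu : ∀ b ∈ B, ∀ g : G, g • b ∈ B → g • b = b := by
    intro b hb g hgb
    have h1 := hb.2 g hgb.1
    have h2 := hgb.2 g⁻¹ (by rw [inv_smul_smul]; exact hb.1)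
    rw [inv_smul_smul] at h2
    exact hr.injective (le_antisymm h2 h1)
  have hBc : ∀ z : L, z ∉ range s → ∃ g : G, g • z ∈ B := by
    intro z hz
    obtain ⟨k, hk⟩ := hTc z hz
    obtain ⟨g, hg, hmin⟩ := Set.exists_min_image {g : G | g • z ∈ T} (fun g => r (g • z))
      (hTf z) ⟨k, hk⟩
    refine ⟨g, hg, fun h hh => ?_⟩
    rw [← mul_smul] at hh ⊢
    exact hmin (h * g) hh
  -- invariant embedding of countably many copies of the rest
  have hABS := t_ABS t_NS G K hinf (ZN R)
    (fun g => ((hRgm g).comp measurable_fst).prodMk measurable_snd) (by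
      intro z
      have h1 := hRinf z.1
      have h2 : {y : R | ∃ g : G, g • z.1 = y} ⊆ Prod.fst '' {v : ZN R | ∃ g : G, g • z = v} := by
        rintro _ ⟨g, rfl⟩
        exact ⟨g • z, ⟨g, rfl⟩, rfl⟩
      exact (h1.mono h2).of_image _)
    {z | (z.1 : L) ∈ B} ((measurable_subtype_coe.comp measurable_fst) hB) (by
      rintro z hz z' hz' ⟨g, hg⟩
      have h1 : g • (z.1 : L) = (z'.1 : L) := congrArg (fun p : ZN R => (p.1 : L)) hg
      have h2 : (g • z).2 = z'.2 := congrArg (fun p : ZN R => p.2) hg
      have h3 := hBu _ hz g (by rw [h1]; exact hz')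
      refine Prod.ext (Subtype.ext ?_) h2
      rw [← h1, h3]) (by
      intro z
      obtain ⟨g, hg⟩ := hBc (z.1 : L) z.1.2
      exact ⟨g • z, hg, g, rfl⟩)
  have hhotel := hotel (Orb G : K → K → Prop) (Orb G : R → R → Prop) orb_equivalence (by
    obtain ⟨e, e1, e2, e3, e4⟩ := hABS
    refine ⟨e, e1, e2, fun p q => ?_, e4⟩
    refine Iff.trans ?_ (e3 p q)
    constructor
    · rintro ⟨⟨g, hg⟩, h⟩
      exact ⟨g, Prod.ext hg h⟩
    · rintro ⟨g, hg⟩
      have hg' : ((g • p.1, p.2) : R × ℕ) = q := hg
      have h1 := congrArg Prod.fst hg'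
      have h2 := congrArg Prod.snd hg'
      exact ⟨⟨g, h1⟩, h2⟩)
  -- the whole space
  have hiso : Iso (Sum.LiftRel (Orb G : K → K → Prop) (Orb G : R → R → Prop))
      (Orb G : L → L → Prop) := by
    refine Iso.of_bij (Sum.elim s (fun z : R => (z : L))) ?_ ?_ ?_ ?_
    · exact hs.sumElim measurable_subtype_coe
    · rintro (a | a) (b | b) h
      · exact congrArg Sum.inl (hsi h)
      · exact absurd ⟨a, h⟩ b.2
      · exact absurd ⟨b, Eq.symm h⟩ a.2
      · exact congrArg Sum.inr (Subtype.ext h)
    · intro z
      by_cases hz : z ∈ range s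
      · obtain ⟨x, rfl⟩ := hz
        exact ⟨Sum.inl x, rfl⟩
      · exact ⟨Sum.inr ⟨z, hz⟩, rfl⟩
    · rintro (a | a) (b | b)
      · rw [Sum.liftRel_inl_inl]
        constructor
        · rintro ⟨g, rfl⟩; exact ⟨g, (hse g a).symm⟩
        · rintro ⟨g, hg⟩; exact ⟨g, hsi ((hse g a).trans hg)⟩
      · simp only [Sum.not_liftRel_inl_inr, false_iff]
        rintro ⟨g, hg⟩
        exact b.2 ⟨g • a, (hse g a).trans hg⟩
      · simp only [Sum.not_liftRel_inr_inl, false_iff]
        rintro ⟨g, hg⟩
        exact (R.smul_mem g a.2) ⟨b, Eq.symm hg⟩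
      · rw [Sum.liftRel_inr_inr]
        constructor
        · rintro ⟨g, rfl⟩; exact ⟨g, rfl⟩
        · rintro ⟨g, hg⟩; exact ⟨g, Subtype.ext hg⟩
  exact t_SB K L _ _ orb_equivalence orb_equivalence
    (IEmb.of_equivariant s hs hsi hse) (hiso.symm.iemb.trans hhotel)

/-- the criterion -/
theorem criterion {X : Type} [MeasurableSpace X] [StandardBorelSpace X] [Uncountable X]
    (E : X → X → Prop) (hE : ∀ x, {y | E x y}.Infinite) (G K : Type) [Group G] [Countable G]
    [TopologicalSpace K] [CompactSpace K] [MetrizableSpace K] [MeasurableSpace K] [BorelSpace K]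
    [MulAction G K] [ContinuousConstSMul G K] (f : X ≃ᵐ K)
    (hf : ∀ x y : X, E x y ↔ ∃ g : G, g • f x = f y) (B : ℕ → Set K)
    (hB : IsTopologicalBasis (range B))
    (hfin : ∀ (n : ℕ) (x : K), {g : G | g • x ∈ frontier (B n)}.Finite) :
    RealizedOn E (ℕ → Bool) := by
  have hne : Nonempty X := by
    by_contra h
    rw [not_nonempty_iff] at h
    exact not_countable (α := X) inferInstance
  have hneK : Nonempty K := hne.map f
  have hinf : ∀ z : K, {y | ∃ g : G, g • z = y}.Infinite := by
    intro z
    have h1 := hE (f.symm z)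
    have h2 : f '' {y | E (f.symm z) y} ⊆ {y | ∃ g : G, g • z = y} := by
      rintro _ ⟨y, hy, rfl⟩
      have h3 := (hf _ _).1 hy
      rwa [f.apply_symm_apply] at h3
    exact (h1.image f.injective.injOn).mono h2
  obtain ⟨L, l1, l2, l3, l4, l5, l6, l7, l8, s, T, s1, s2, s3, s4, s5, s6, s7⟩ :=
    t_EXT G K B hB hfin
  obtain ⟨φ, hφ⟩ := ext_iso G K L hinf s T s1 s2 s3 s4 s5 s6 s7
  refine cantor_realization E hE L ⟨G, inferInstance, inferInstance, l7, l8, f.trans φ, ?_⟩
  intro x y
  rw [hf]
  exact hφ (f x) (f y)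

end Pool.Agent.N480.CS
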