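import Pool.Agent.N480.CS.GEN

set_option autoImplicit false

/-!
Project CS: the basis for actions with finite stabilizers (adapted from GEN by helper283).
-/

namespace Pool.Agent.N480.CS

open Set TopologicalSpace Topology

namespace GEN2

open GEN

variable {G K : Type} [Group G] [TopologicalSpace K] [CompactSpace K]
  [MetrizableSpace K] [MulAction G K] [ContinuousConstSMul G K] {d : ℕ}

/-- the points moved to different points -/
def VV (K : Type) [MulAction G K] (Φ : Fin (d + 1) → G) : Set K :=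
  {x | ∀ i j, i ≠ j → Φ i • x ≠ Φ j • x}

theorem cover (Φ : Fin (d + 1) → G) : ∃ t : Set (Set K), t.Countable ∧ (∀ A ∈ t, IsClosed A ∧
    ∀ i j, i ≠ j → ∀ y ∈ A, ∀ z ∈ A, Φ i • y ≠ Φ j • z) ∧ VV K Φ ⊆ ⋃₀ t := by
  have hloc : ∀ x ∈ VV K Φ, ∃ A : Set K, A ∈ 𝓝 x ∧ IsClosed A ∧
      ∀ i j, i ≠ j → ∀ y ∈ A, ∀ z ∈ A, Φ i • y ≠ Φ j • z := by
    intro x hxV
    have hD : IsOpen (⋂ q : {q : Fin (d + 1) × Fin (d + 1) // q.1 ≠ q.2},
        {p : K × K | Φ q.1.1 • p.1 ≠ Φ q.1.2 • p.2}) := by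
      refine isOpen_iInter_of_finite fun q => ?_
      exact isOpen_ne_fun ((continuous_const_smul _).comp continuous_fst)
        ((continuous_const_smul _).comp continuous_snd)
    have hx : (x, x) ∈ (⋂ q : {q : Fin (d + 1) × Fin (d + 1) // q.1 ≠ q.2},
        {p : K × K | Φ q.1.1 • p.1 ≠ Φ q.1.2 • p.2}) := by
      rw [mem_iInter]
      rintro ⟨⟨i, j⟩, hij⟩
      exact hxV i j hij
    have h4 := hD.mem_nhds hx
    rw [nhds_prod_eq, Filter.mem_prod_same_iff] at h4
    obtain ⟨t, ht, htD⟩ := h4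
    obtain ⟨A, hA, hAc, hAt⟩ := exists_mem_nhds_isClosed_subset ht
    refine ⟨A, hA, hAc, fun i j hij y hy z hz => ?_⟩
    have h5 := htD (mk_mem_prod (hAt hy) (hAt hz))
    rw [mem_iInter] at h5
    exact h5 ⟨(i, j), hij⟩
  choose! A hA hAc hAd using hloc
  obtain ⟨t, ht, htc, hcov⟩ := TopologicalSpace.countable_cover_nhdsWithin
    (s := VV K Φ) (f := A) fun x hx => mem_nhdsWithin_of_mem_nhds (hA x hx)
  refine ⟨A '' t, htc.image A, ?_, ?_⟩
  · rintro _ ⟨x, hx, rfl⟩
    exact ⟨hAc x (ht hx), hAd x (ht hx)⟩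
  · rw [sUnion_image]
    exact hcov

theorem generic [Countable G] (hU : Unst K d)
    (hstab : ∀ x : K, {g : G | g • x = x}.Finite) :
    Dense {h : C(K, ℝ) | ∀ x : K, {g : G | h (g • x) = 0}.Finite} := by
  have hcov := fun Φ : Fin (d + 1) → G => cover (K := K) Φ
  choose t ht1 ht2 ht3 using hcov
  have h0 : ∀ Φ : Fin (d + 1) → G, Countable (t Φ) := fun Φ => (ht1 Φ).to_subtype
  have h1 : Dense (⋂ p : (Σ Φ : Fin (d + 1) → G, t Φ), O (K := K) p.1 p.2.1) :=
    dense_iInter_of_isOpen (fun p => isOpen_O p.1 p.2.1 (ht2 p.1 p.2.1 p.2.2).1)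
      (fun p => dense_O hU p.1 p.2.1 (ht2 p.1 p.2.1 p.2.2).1 (ht2 p.1 p.2.1 p.2.2).2)
  refine h1.mono ?_
  intro h hh x
  by_contra hinf
  have hinf' : {g : G | h (g • x) = 0}.Infinite := hinf
  -- infinitely many points
  have hpts : ((fun g : G => g • x) '' {g : G | h (g • x) = 0}).Infinite := by
    intro hfin
    apply hinf
    have hsub : {g : G | h (g • x) = 0} ⊆
        ⋃ y ∈ (fun g : G => g • x) '' {g : G | h (g • x) = 0}, {g : G | g • x = y} := by
      intro g hg
      rw [mem_iUnion₂]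
      exact ⟨g • x, ⟨g, hg, rfl⟩, rfl⟩
    refine (hfin.biUnion ?_).subset hsub
    rintro _ ⟨k, -, rfl⟩
    refine ((hstab x).image fun g => k * g).subset ?_
    intro g hg
    refine ⟨k⁻¹ * g, ?_, by group⟩
    show (k⁻¹ * g) • x = x
    have hg' : g • x = k • x := hg
    rw [mul_smul, hg', inv_smul_smul]
  let e := hpts.natEmbedding
  have he : ∀ n, ∃ g : G, h (g • x) = 0 ∧ g • x = (e n : K) := fun n => by
    obtain ⟨g, hg, hge⟩ := (e n).2
    exact ⟨g, hg, hge⟩
  choose γ hγ1 hγ2 using he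
  have hxV : x ∈ VV K (fun i : Fin (d + 1) => γ i.val) := by
    intro i j hij h2
    have h2' : γ i.val • x = γ j.val • x := h2
    rw [hγ2, hγ2] at h2'
    exact hij (Fin.ext (e.injective (Subtype.ext h2')))
  obtain ⟨A, hA, hxA⟩ := ht3 _ hxV
  obtain ⟨i, hi⟩ := mem_iInter.1 hh ⟨_, ⟨A, hA⟩⟩ x hxA
  exact hi (hγ1 i.val)

end GEN2

/-- the basis for actions with finite stabilizers -/
theorem gen2 (G K : Type) [Group G] [Countable G] [TopologicalSpace K] [CompactSpace K]
    [MetrizableSpace K] [MulAction G K] [ContinuousConstSMul G K] (d : ℕ)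
    (hstab : ∀ x : K, {g : G | g • x = x}.Finite) (hU : Unst K d) :
    ∃ B : ℕ → Set K, IsTopologicalBasis (range B) ∧
      ∀ (n : ℕ) (x : K), {g : G | g • x ∈ frontier (B n)}.Finite := by
  have hgen := GEN2.generic (G := G) hU hstab
  -- the pairs of basic sets
  let S : Set (Set K × Set K) := {p | p.1 ∈ countableBasis K ∧ p.2 ∈ countableBasis K ∧
    closure p.1 ⊆ p.2}
  have hS : S.Countable := by
    refine ((countable_countableBasis K).prod (countable_countableBasis K)).mono ?_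
    rintro p ⟨h1, h2, -⟩
    exact ⟨h1, h2⟩
  have hex : ∀ p : Set K × Set K, p ∈ S → ∃ h : C(K, ℝ), (∀ x : K, {g : G | h (g • x) = 0}.Finite) ∧
      p.1 ⊆ {x | 0 < h x} ∧ {x | 0 < h x} ⊆ p.2 := by
    rintro ⟨V, V'⟩ ⟨hV, hV', hVV⟩
    obtain ⟨f, hf0, hf1, -⟩ := exists_continuous_zero_one_of_isClosed
      (isOpen_of_mem_countableBasis hV').isClosed_compl (isClosed_closure (s := V))
      (by
        rw [Set.disjoint_left]
        intro x hx hx'
        exact hx (hVV hx'))
    obtain ⟨h, hh, hdist⟩ := hgen.exists_dist_lt (f - ContinuousMap.const K (1 / 2 : ℝ))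
      (by norm_num : (0 : ℝ) < 1 / 4)
    rw [ContinuousMap.dist_lt_iff (by norm_num)] at hdist
    refine ⟨h, hh, fun x hx => ?_, fun x hx => ?_⟩
    · have h1 := hdist x
      have h2 : f x = 1 := hf1 (subset_closure hx)
      rw [Real.dist_eq, ContinuousMap.sub_apply, h2, ContinuousMap.const_apply] at h1
      have h3 := (abs_lt.1 h1).2
      show 0 < h x
      linarith
    · by_contra hx'
      have h1 := hdist x
      have h2 : f x = 0 := hf0 hx'
      rw [Real.dist_eq, ContinuousMap.sub_apply, h2, ContinuousMap.const_apply] at h1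
      have h3 := (abs_lt.1 h1).1
      have h4 : 0 < h x := hx
      linarith
  choose! h hfin hsub1 hsub2 using hex
  let T : Set (Set K) := insert ∅ ((fun p => {x | 0 < h p x}) '' S)
  have hT : T.Countable := (hS.image _).insert _
  obtain ⟨B, hB⟩ := hT.exists_eq_range (insert_nonempty _ _)
  refine ⟨B, ?_, ?_⟩
  · rw [← hB]
    refine isTopologicalBasis_of_isOpen_of_nhds ?_ ?_
    · rintro u (rfl | ⟨p, -, rfl⟩)
      · exact isOpen_empty
      · exact isOpen_lt continuous_const (h p).continuous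
    · intro x W hx hW
      obtain ⟨V', hV', hxV', hV'W⟩ := (isBasis_countableBasis K).exists_subset_of_mem_open hx hW
      obtain ⟨V, hV, hxV, hVV'⟩ := (isBasis_countableBasis K).exists_closure_subset
        ((isOpen_of_mem_countableBasis hV').mem_nhds hxV')
      have hp : (V, V') ∈ S := ⟨hV, hV', hVV'⟩
      exact ⟨_, Or.inr ⟨(V, V'), hp, rfl⟩, hsub1 _ hp hxV, (hsub2 _ hp).trans hV'W⟩
  · intro n x
    have h1 : B n ∈ T := by rw [hB]; exact ⟨n, rfl⟩
    rcases h1 with h1 | ⟨p, hp, h1⟩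
    · rw [h1, frontier_empty]
      simp
    · rw [← h1]
      refine (hfin p hp x).subset ?_
      intro g hg
      have h2 := frontier_lt_subset_eq continuous_const (h p).continuous hg
      exact h2.symm

end Pool.Agent.N480.CS
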