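import Pool.Agent.N480.CS.Stm

/-!
CS/NRV (helper11): maps of a `d`-dimensional space to `ℝ^(d+1)` can be made nowhere zero
-/

set_option autoImplicit false

namespace Pool.Agent.N480.CS

namespace NRV

open Polynomial Finset

/-- general position -/
theorem genpos (d : ℕ) (κ : Type) [Fintype κ] (q : κ → Fin (d + 1) → ℝ) (δ : ℝ) (hδ : 0 < δ) :
    ∃ p : κ → Fin (d + 1) → ℝ, (∀ j i, |p j i - q j i| < δ) ∧
      ∀ J : Finset κ, J.card ≤ d + 1 → ∀ c : κ → ℝ, (∀ j, j ∉ J → c j = 0) →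
        (∀ i, ∑ j, c j * p j i = 0) → ∀ j, c j = 0 := by
  classical
  obtain ⟨t, ht⟩ : ∃ t : κ ⊕ Fin (d + 1) → ℝ, Function.Injective t := by
    refine ⟨fun k => ((Fintype.equivFin (κ ⊕ Fin (d + 1)) k : ℕ) : ℝ), fun a b h => ?_⟩
    have h1 : ((Fintype.equivFin (κ ⊕ Fin (d + 1)) a : ℕ)) =
      (Fintype.equivFin (κ ⊕ Fin (d + 1)) b : ℕ) := Nat.cast_injective (R := ℝ) h
    exact (Fintype.equivFin _).injective (Fin.ext h1)
  obtain ⟨q', hq'⟩ : ∃ q' : κ ⊕ Fin (d + 1) → Fin (d + 1) → ℝ, q' = Sum.elim q fun _ _ => 0 :=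
    ⟨_, rfl⟩
  let A : (Fin (d + 1) → κ ⊕ Fin (d + 1)) → Matrix (Fin (d + 1)) (Fin (d + 1)) ℝ :=
    fun e => Matrix.vandermonde (t ∘ e)
  let B : (Fin (d + 1) → κ ⊕ Fin (d + 1)) → Matrix (Fin (d + 1)) (Fin (d + 1)) ℝ :=
    fun e => Matrix.of fun a b => q' (e a) b
  let Pl : (Fin (d + 1) → κ ⊕ Fin (d + 1)) → ℝ[X] :=
    fun e => Matrix.det ((X : ℝ[X]) • (A e).map C + (B e).map C)
  have hP : ∀ e, Function.Injective e → Pl e ≠ 0 := by
    intro e he h0
    have h1 := Polynomial.coeff_det_X_add_C_card (A e) (B e)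
    change (Pl e).coeff _ = _ at h1
    rw [h0, coeff_zero] at h1
    exact (Matrix.det_vandermonde_ne_zero_iff.2 (ht.comp he)) h1.symm
  obtain ⟨Q, hQ⟩ : ∃ Q, Q = ∏ e ∈ (Finset.univ.filter fun e : Fin (d + 1) → κ ⊕ Fin (d + 1) =>
      Function.Injective e), Pl e := ⟨_, rfl⟩
  have hQ0 : Q ≠ 0 := by
    rw [hQ, Finset.prod_ne_zero_iff]
    intro e he
    exact hP e (Finset.mem_filter.1 he).2
  obtain ⟨M, hM⟩ : ∃ M : ℝ, M = 1 + ∑ k, ∑ b : Fin (d + 1), |t k| ^ (b : ℕ) := ⟨_, rfl⟩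
  have hM0 : 0 < M := by
    rw [hM]
    positivity
  have hMb : ∀ k (b : Fin (d + 1)), |t k ^ (b : ℕ)| ≤ M := by
    intro k b
    rw [abs_pow, hM]
    have h1 : |t k| ^ (b : ℕ) ≤ ∑ b : Fin (d + 1), |t k| ^ (b : ℕ) :=
      Finset.single_le_sum (f := fun b : Fin (d + 1) => |t k| ^ (b : ℕ))
        (fun _ _ => by positivity) (Finset.mem_univ b)
    have h2 : ∑ b : Fin (d + 1), |t k| ^ (b : ℕ) ≤ ∑ k, ∑ b : Fin (d + 1), |t k| ^ (b : ℕ) :=
      Finset.single_le_sum (f := fun k => ∑ b : Fin (d + 1), |t k| ^ (b : ℕ))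
        (fun _ _ => by positivity) (Finset.mem_univ k)
    linarith
  obtain ⟨s, hs, hsr⟩ : ∃ s ∈ Set.Ioo (0 : ℝ) (δ / M), s ∉ Q.roots.toFinset :=
    (Set.Ioo_infinite (by positivity)).exists_notMem_finset _
  have hsQ : Q.eval s ≠ 0 := by
    intro h
    apply hsr
    rw [Multiset.mem_toFinset, mem_roots hQ0]
    exact h
  have hev : ∀ e, Function.Injective e → (s • A e + B e).det ≠ 0 := by
    intro e he h0
    apply hsQ
    rw [hQ, eval_prod]
    refine Finset.prod_eq_zero (Finset.mem_filter.2 ⟨Finset.mem_univ e, he⟩) ?_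
    have h1 : (evalRingHom s) (Pl e) =
        ((evalRingHom s).mapMatrix ((X : ℝ[X]) • (A e).map C + (B e).map C)).det :=
      RingHom.map_det _ _
    have h2 : (evalRingHom s).mapMatrix ((X : ℝ[X]) • (A e).map C + (B e).map C) =
        s • A e + B e := by
      ext a b
      simp
      exact mul_comm _ _
    rw [h2, h0] at h1
    exact h1
  refine ⟨fun j b => q j b + s * t (Sum.inl j) ^ (b : ℕ), fun j b => ?_, ?_⟩
  · have h1 : q j b + s * t (Sum.inl j) ^ (b : ℕ) - q j b = s * t (Sum.inl j) ^ (b : ℕ) := by ring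
    rw [h1, abs_mul, abs_of_pos hs.1]
    calc s * |t (Sum.inl j) ^ (b : ℕ)| ≤ s * M := mul_le_mul_of_nonneg_left (hMb _ _) hs.1.le
      _ < δ / M * M := mul_lt_mul_of_pos_right hs.2 hM0
      _ = δ := by field_simp
  · intro J hJ c hc hsum
    obtain ⟨J', hJ', hJc⟩ := Finset.exists_superset_card_eq
      (s := J.map ⟨Sum.inl, Sum.inl_injective⟩) (n := d + 1) (by rw [Finset.card_map]; exact hJ)
      (show d + 1 ≤ Fintype.card (κ ⊕ Fin (d + 1)) by
        rw [Fintype.card_sum, Fintype.card_fin]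
        omega)
    let eq := J'.equivFinOfCardEq hJc
    let e : Fin (d + 1) → κ ⊕ Fin (d + 1) := fun a => (eq.symm a : κ ⊕ Fin (d + 1))
    have he : Function.Injective e := fun a b h => eq.symm.injective (Subtype.ext h)
    obtain ⟨c', hc'⟩ : ∃ c' : κ ⊕ Fin (d + 1) → ℝ, c' = Sum.elim c fun _ => 0 := ⟨_, rfl⟩
    have hv : Matrix.vecMul (fun a => c' (e a)) (s • A e + B e) = 0 := by
      funext b
      have h1 : Matrix.vecMul (fun a => c' (e a)) (s • A e + B e) b =
          ∑ a, (fun k => c' k * (s * t k ^ (b : ℕ) + q' k b)) (e a) := by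
        rw [Matrix.vecMul, dotProduct]
        refine Finset.sum_congr rfl fun a _ => ?_
        simp [A, B, Matrix.vandermonde_apply]
      have h2 : ∑ a, (fun k => c' k * (s * t k ^ (b : ℕ) + q' k b)) (e a) =
          ∑ k ∈ J', c' k * (s * t k ^ (b : ℕ) + q' k b) := by
        rw [← Finset.sum_coe_sort J']
        exact Equiv.sum_comp eq.symm
          (fun x : J' => c' x * (s * t x ^ (b : ℕ) + q' x b))
      have h3 : ∑ k ∈ J', c' k * (s * t k ^ (b : ℕ) + q' k b) =
          ∑ k, c' k * (s * t k ^ (b : ℕ) + q' k b) := by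
        refine Finset.sum_subset (Finset.subset_univ _) fun k _ hk => ?_
        rcases k with j | j
        · have h4 : c j = 0 := by
            refine hc j fun hj => hk (hJ' ?_)
            exact Finset.mem_map.2 ⟨j, hj, rfl⟩
          rw [hc', Sum.elim_inl, h4, zero_mul]
        · rw [hc', Sum.elim_inr, zero_mul]
      rw [h1, h2, h3, Fintype.sum_sum_type]
      have h5 : ∑ k : Fin (d + 1), c' (Sum.inr k) * (s * t (Sum.inr k) ^ (b : ℕ) +
          q' (Sum.inr k) b) = 0 := by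
        refine Finset.sum_eq_zero fun k _ => ?_
        rw [hc', Sum.elim_inr, zero_mul]
      rw [h5, add_zero, Pi.zero_apply, ← hsum b]
      refine Finset.sum_congr rfl fun j _ => ?_
      rw [hc', hq', Sum.elim_inl, Sum.elim_inl]
      ring
    have h0 := Matrix.eq_zero_of_vecMul_eq_zero (hev e he) hv
    intro j
    by_cases hj : j ∈ J
    · have h1 : (Sum.inl j : κ ⊕ Fin (d + 1)) ∈ J' := hJ' (Finset.mem_map.2 ⟨j, hj, rfl⟩)
      have h2 := congrFun h0 (eq ⟨Sum.inl j, h1⟩)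
      have h3 : e (eq ⟨Sum.inl j, h1⟩) = Sum.inl j := by
        change ((eq.symm (eq ⟨Sum.inl j, h1⟩) : J') : κ ⊕ Fin (d + 1)) = Sum.inl j
        rw [Equiv.symm_apply_apply]
      simp only [h3, Pi.zero_apply] at h2
      rw [hc', Sum.elim_inl] at h2
      exact h2
    · exact hc j hj

end NRV

open Set TopologicalSpace in
theorem t_NRV : S_NRV := by
  intro K _ _ _ d hK φ hφ ε hε
  classical
  -- the cover
  obtain ⟨T, hT⟩ := isCompact_univ.elim_finite_subcover
    (fun y : K => φ ⁻¹' Metric.ball (φ y) (ε / 4)) (fun y => Metric.isOpen_ball.preimage hφ)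
    (fun x _ => Set.mem_iUnion.2 ⟨x, Metric.mem_ball_self (by positivity)⟩)
  obtain ⟨κ, hκ, W, hWo, hWc, hWV, hWn⟩ := hK {y // y ∈ T}
    (fun y => φ ⁻¹' Metric.ball (φ y.1) (ε / 4)) (fun y => Metric.isOpen_ball.preimage hφ) (by
      rw [Set.eq_univ_iff_forall]
      intro x
      obtain ⟨y, hy, hx⟩ := Set.mem_iUnion₂.1 (hT (Set.mem_univ x))
      exact Set.mem_iUnion.2 ⟨⟨y, hy⟩, hx⟩)
  have : Fintype κ := Fintype.ofFinite κ
  choose i hi using hWV
  obtain ⟨p, hp1, hp2⟩ := NRV.genpos d κ (fun j => φ (i j).1) (ε / 4) (by positivity)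
  let _ : MetricSpace K := metrizableSpaceMetric K
  obtain ⟨ρ, hρ⟩ := PartitionOfUnity.exists_isSubordinate (s := (Set.univ : Set K)) isClosed_univ
    W hWo (by rw [hWc])
  have hρ1 : ∀ x, ∑ j, ρ j x = 1 := by
    intro x
    rw [← finsum_eq_sum_of_fintype]
    exact ρ.sum_eq_one (Set.mem_univ x)
  have hρ0 : ∀ j x, 0 ≤ ρ j x := fun j x => ρ.nonneg j x
  have hρW : ∀ j x, x ∉ W j → ρ j x = 0 := by
    intro j x hx
    by_contra h
    exact hx (hρ j (subset_tsupport _ h))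
  refine ⟨fun x b => ∑ j, ρ j x * p j b, ?_, ?_, ?_⟩
  · refine continuous_pi fun b => ?_
    exact continuous_finsetSum _ fun j _ => ((ρ j).continuous).mul continuous_const
  · intro x b
    have h1 : ∑ j, ρ j x * p j b - φ x b = ∑ j, ρ j x * (p j b - φ x b) := by
      have h2 : ∑ j, ρ j x * (p j b - φ x b) = ∑ j, ρ j x * p j b - (∑ j, ρ j x) * φ x b := by
        rw [Finset.sum_mul, ← Finset.sum_sub_distrib]
        exact Finset.sum_congr rfl fun j _ => by ring
      rw [h2, hρ1, one_mul]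
    rw [h1]
    have h3 : ∀ j, |ρ j x * (p j b - φ x b)| ≤ ρ j x * (ε / 2) := by
      intro j
      rw [abs_mul, abs_of_nonneg (hρ0 j x)]
      by_cases hx : x ∈ W j
      · refine mul_le_mul_of_nonneg_left ?_ (hρ0 j x)
        have h4 := hi j hx
        rw [Set.mem_preimage, Metric.mem_ball] at h4
        have h5 : |φ x b - φ (i j).1 b| < ε / 4 := by
          refine lt_of_le_of_lt ?_ h4
          rw [← Real.dist_eq]
          exact dist_le_pi_dist (φ x) (φ (i j).1) b
        have h6 := hp1 j b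
        rw [abs_lt] at h5 h6
        rw [abs_le]
        constructor <;> linarith
      · rw [hρW j x hx, zero_mul, zero_mul]
    calc |∑ j, ρ j x * (p j b - φ x b)| ≤ ∑ j, |ρ j x * (p j b - φ x b)| :=
          Finset.abs_sum_le_sum_abs _ _
      _ ≤ ∑ j, ρ j x * (ε / 2) := Finset.sum_le_sum fun j _ => h3 j
      _ = ε / 2 := by rw [← Finset.sum_mul, hρ1, one_mul]
      _ < ε := by linarith
  · intro x h0
    have h1 := hp2 (Finset.univ.filter fun j => x ∈ W j) (by
      refine le_trans (le_of_eq ?_) (hWn x)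
      rw [← Set.ncard_coe_finset]
      congr 1
      ext j
      simp) (fun j => ρ j x) (fun j hj => hρW j x fun h => hj (by simp [h]))
      (fun b => congrFun h0 b)
    have h2 := hρ1 x
    rw [Finset.sum_eq_zero fun j _ => h1 j] at h2
    exact zero_ne_one h2

end Pool.Agent.N480.CS
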