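import Mathlib
import Pool.Agent.N480.CS.Defs
import Pool.Agent.TH722.CR.Core

set_option autoImplicit false

/-!
A countable Borel equivalence relation with a compact action realization, but none on Cantor
space.
-/

namespace Pool.Agent.N480.CS

open Set MeasureTheory TopologicalSpace Filter
open Pool.Agent.TH722.CR (borelSpace_sum)

/-- the space of the example -/
abbrev XE : Type := (ℕ → Bool) ⊕ Bool

/-- the relation: the two points of the second summand are equivalent, all others only to
themselves -/
def EE (a b : XE) : Prop := a = b ∨ (a.isRight ∧ b.isRight)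

theorem ee_cber : IsCBER EE where
  equivalence := by
    refine ⟨fun a => Or.inl rfl, ?_, ?_⟩
    · rintro a b (h | h)
      · exact Or.inl h.symm
      · exact Or.inr ⟨h.2, h.1⟩
    · rintro a b c (rfl | h) (h' | h')
      · exact Or.inl h'
      · exact Or.inr h'
      · exact Or.inr (h' ▸ h)
      · exact Or.inr ⟨h.1, h'.2⟩
  borel := by
    have hs : StandardBorelSpace XE := by
      have := borelSpace_sum (ℕ → Bool) Bool
      have h1 : PolishSpace ((ℕ → Bool) ⊕ Bool) := { }
      infer_instance
    have : {p : XE × XE | EE p.1 p.2} = {p : XE × XE | p.1 = p.2} ∪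
        (range Sum.inr ×ˢ range Sum.inr) := by
      ext ⟨a, b⟩
      simp only [EE, mem_union, mem_prod, mem_range]
      constructor
      · rintro (h | ⟨h1, h2⟩)
        · exact Or.inl h
        · obtain ⟨x, rfl⟩ := Sum.isRight_iff.1 h1
          obtain ⟨y, rfl⟩ := Sum.isRight_iff.1 h2
          exact Or.inr ⟨⟨x, rfl⟩, y, rfl⟩
      · rintro (h | ⟨⟨x, hx⟩, y, hy⟩)
        · exact Or.inl h
        · exact Or.inr ⟨Sum.isRight_iff.2 ⟨x, hx.symm⟩, Sum.isRight_iff.2 ⟨y, hy.symm⟩⟩
    rw [this]
    refine MeasurableSet.union (measurableSet_eq_fun measurable_fst measurable_snd) ?_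
    exact measurableSet_range_inr.prod measurableSet_range_inr
  countable := by
    intro a
    refine Countable.mono (s₂ := {a} ∪ range Sum.inr) ?_
      ((countable_singleton a).union (countable_range _))
    rintro b (h | h)
    · exact Or.inl h.symm
    · obtain ⟨y, rfl⟩ := Sum.isRight_iff.1 h.2
      exact Or.inr ⟨y, rfl⟩

/-- the permutations of the two points -/
def GG : Type := Equiv.Perm Bool

instance : Group GG := inferInstanceAs (Group (Equiv.Perm Bool))

instance : Countable GG := inferInstanceAs (Countable (Equiv.Perm Bool))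

/-- the underlying map -/
def GG.fn (σ : GG) : Bool → Bool := fun b => Equiv.toFun (α := Bool) (β := Bool) σ b

instance : MulAction GG XE where
  smul σ := Sum.map id σ.fn
  one_smul := by rintro (a | a) <;> rfl
  mul_smul := by rintro σ τ (a | a) <;> rfl

theorem ee_compact : CompactRealization EE := by
  refine ⟨XE, inferInstance, inferInstance, inferInstance, inferInstance,
    borelSpace_sum (ℕ → Bool) Bool, GG, inferInstance, inferInstance, inferInstance, ⟨?_⟩,
    MeasurableEquiv.refl _, ?_⟩
  · intro σ
    exact Continuous.sumMap continuous_id (continuous_of_discreteTopology)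
  · intro a b
    constructor
    · rintro (rfl | ⟨h1, h2⟩)
      · exact ⟨1, one_smul _ _⟩
      · obtain ⟨x, rfl⟩ := Sum.isRight_iff.1 h1
        obtain ⟨y, rfl⟩ := Sum.isRight_iff.1 h2
        refine ⟨(Equiv.swap x y : Equiv.Perm Bool), ?_⟩
        show Sum.map id (GG.fn (Equiv.swap x y : Equiv.Perm Bool)) (Sum.inr x) = Sum.inr y
        exact congrArg Sum.inr (Equiv.swap_apply_left x y)
    · rintro ⟨σ, h⟩
      have h' : Sum.map id σ.fn a = b := h
      rcases a with a | a
      · exact Or.inl h'
      · rw [← h']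
        exact Or.inr ⟨rfl, rfl⟩

theorem ee_not_cantor : ¬ RealizedOn EE (ℕ → Bool) := by
  rintro ⟨G, _, _, _, _, f, hf⟩
  obtain ⟨g, hg⟩ := (hf (Sum.inr false) (Sum.inr true)).1 (Or.inr ⟨rfl, rfl⟩)
  obtain ⟨p, hp⟩ : ∃ p, p = f (Sum.inr false) := ⟨_, rfl⟩
  have hne : g • p ≠ p := by
    rw [hp, hg]
    intro h
    exact absurd (Sum.inr.inj (f.injective h)) (by decide)
  have hU : IsOpen {c : ℕ → Bool | g • c ≠ c} :=
    isOpen_ne_fun (continuous_const_smul g) continuous_id
  have hfin : {c : ℕ → Bool | g • c ≠ c}.Finite := by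
    refine ((Set.finite_range (fun b : Bool => f (Sum.inr b)))).subset ?_
    intro c hc
    obtain ⟨x, rfl⟩ := f.surjective c
    obtain ⟨y, hy⟩ := f.surjective (g • f x)
    have h1 : EE x y := (hf x y).2 ⟨g, hy.symm⟩
    rcases h1 with rfl | ⟨h1, -⟩
    · exact absurd hy.symm hc
    · obtain ⟨b, rfl⟩ := Sum.isRight_iff.1 h1
      exact ⟨b, rfl⟩
  let q : ℕ → ℕ → Bool := fun n => Function.update p n (!p n)
  have hq : Tendsto q atTop (nhds p) := by
    rw [tendsto_pi_nhds]
    intro i
    refine tendsto_const_nhds.congr' ?_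
    filter_upwards [eventually_gt_atTop i] with n hn
    simp only [q]
    rw [Function.update_of_ne (by omega)]
  have hev : ∀ᶠ n in atTop, q n ∈ {c : ℕ → Bool | g • c ≠ c} := hq (hU.mem_nhds hne)
  obtain ⟨N, hN⟩ := eventually_atTop.1 hev
  have hinj : Function.Injective q := by
    intro m n hmn
    by_contra h
    have h1 := congrFun hmn m
    simp only [q] at h1
    rw [Function.update_self, Function.update_of_ne h] at h1
    cases h2 : p m <;> rw [h2] at h1 <;> exact absurd h1 (by decide)
  have h2 : (q '' Ici N).Finite := hfin.subset (by rintro _ ⟨n, hn, rfl⟩; exact hN n hn)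
  exact (Set.Ici_infinite N) ((Set.finite_image_iff hinj.injOn).1 h2)

end Pool.Agent.N480.CS
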