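import Mathlib
import Pool.Agent.N480.CS.Neg
import Pool.Agent.N480.CS.Fin
import Pool.Agent.N480.CS.NRV
import Pool.Agent.N480.CS.GEN2

set_option autoImplicit false

namespace Pool.Agent.N480.CS

open Set MeasureTheory TopologicalSpace Filter Topology

theorem part_neg : ∃ (X : Type) (_ : MeasurableSpace X) (_ : StandardBorelSpace X)
    (E : X → X → Prop), Uncountable X ∧ IsCBER E ∧ CompactRealization E ∧
      ¬ RealizedOn E (ℕ → Bool) := by
  have hs : StandardBorelSpace XE := by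
    have := Pool.Agent.TH722.CR.borelSpace_sum (ℕ → Bool) Bool
    have h1 : PolishSpace ((ℕ → Bool) ⊕ Bool) := { }
    infer_instance
  have hu : Uncountable (ℕ → Bool) := by
    rw [← not_countable_iff, ← Cardinal.mk_le_aleph0_iff, not_le]
    simpa using Cardinal.cantor Cardinal.aleph0
  exact ⟨XE, inferInstance, hs, EE, Function.Injective.uncountable
    (f := (Sum.inl : (ℕ → Bool) → XE)) Sum.inl_injective, ee_cber, ee_compact, ee_not_cantor⟩

theorem perfect_of {K : Type} [TopologicalSpace K] {P : Set K} (hP : IsClosed P)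
    (h : ∀ z : P, ∀ U : Set P, IsOpen U → z ∈ U → ∃ y ∈ U, y ≠ z) : Perfect P := by
  refine ⟨hP, fun x hx => ?_⟩
  rw [accPt_iff_nhds]
  intro U hU
  obtain ⟨V, hVU, hV, hxV⟩ := mem_nhds_iff.1 hU
  obtain ⟨y, hy, hne⟩ := h ⟨x, hx⟩ (Subtype.val ⁻¹' V) (hV.preimage continuous_subtype_val) hxV
  exact ⟨y, ⟨hVU hy, y.2⟩, fun he => hne (Subtype.ext he)⟩

theorem part_pos (X : Type) [MeasurableSpace X] [StandardBorelSpace X] [Uncountable X]
    (E : X → X → Prop) (hE : ∀ x, {y | E x y}.Infinite) (K : Type) [TopologicalSpace K]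
    [CompactSpace K] [MetrizableSpace K] [MeasurableSpace K] [BorelSpace K] :
    (RealizedOn E K → ∃ P : Set K, Perfect P ∧ P.Nonempty ∧ RealizedOn E P) ∧
    (RealizedOn E K → TotallyDisconnectedSpace K → RealizedOn E (ℕ → Bool)) ∧
    ∀ (G : Type) [Group G] [Countable G] [MulAction G K] [ContinuousConstSMul G K] (f : X ≃ᵐ K),
      (∀ x y : X, E x y ↔ ∃ g : G, g • f x = f y) →
      ((∃ d : ℕ, CovDim K d) → (∀ z : K, {g : G | g • z = z}.Finite) →
        RealizedOn E (ℕ → Bool)) ∧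
      ((∃ B : ℕ → Set K, IsTopologicalBasis (range B) ∧
        ∀ (n : ℕ) (z : K), {g : G | g • z ∈ frontier (B n)}.Finite) →
        RealizedOn E (ℕ → Bool)) := by
  refine ⟨fun h => ?_, fun h hK => cantor_realization E hE K h, fun G _ _ _ _ f hf => ⟨?_, ?_⟩⟩
  · obtain ⟨P, h1, h2, h3, h4⟩ := perfect_realization E hE K h
    exact ⟨P, perfect_of h1 h3, h2, h4⟩
  · rintro ⟨d, hd⟩ hstab
    obtain ⟨B, hB, hfin⟩ := gen2 G K d hstab (t_NRV K d hd)
    exact criterion E hE G K f hf B hB hfin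
  · rintro ⟨B, hB, hfin⟩
    exact criterion E hE G K f hf B hB hfin

end Pool.Agent.N480.CS
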