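import Pool.Agent.N480.CS.Stm

set_option autoImplicit false

namespace Pool.Agent.N480.CS

open Set TopologicalSpace Topology

namespace GEN

section

variable {G K : Type} [Group G] [TopologicalSpace K] [CompactSpace K]
  [MetrizableSpace K] [MulAction G K] [ContinuousConstSMul G K] {d : ℕ}

/-- functions which do not vanish at all the points `Φ i • x`, `x ∈ A` -/
def O (Φ : Fin (d + 1) → G) (A : Set K) : Set C(K, ℝ) :=
  {h | ∀ x ∈ A, ∃ i, h (Φ i • x) ≠ 0}

theorem isOpen_O (Φ : Fin (d + 1) → G) (A : Set K) (hA : IsClosed A) : IsOpen (O Φ A) := by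
  rw [← isClosed_compl_iff]
  have h1 : (O Φ A)ᶜ = Prod.fst ''
      ({q : C(K, ℝ) × K | q.2 ∈ A} ∩ ⋂ i, {q : C(K, ℝ) × K | q.1 (Φ i • q.2) = 0}) := by
    ext h
    simp only [O, mem_compl_iff, mem_setOf_eq, mem_image, mem_inter_iff, mem_iInter]
    push Not
    constructor
    · rintro ⟨x, hx, hi⟩
      exact ⟨(h, x), ⟨hx, hi⟩, rfl⟩
    · rintro ⟨⟨h', x⟩, ⟨hx, hi⟩, rfl⟩
      exact ⟨x, hx, hi⟩
  rw [h1]
  refine isClosedMap_fst_of_compactSpace _ ?_
  refine (hA.preimage continuous_snd).inter (isClosed_iInter fun i => ?_)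
  refine isClosed_eq ?_ continuous_const
  exact continuous_eval.comp (continuous_fst.prodMk
    ((continuous_const_smul (Φ i)).comp continuous_snd))

theorem dense_O (hU : Unst K d) (Φ : Fin (d + 1) → G) (A : Set K) (hA : IsClosed A)
    (hd : ∀ i j, i ≠ j → ∀ x ∈ A, ∀ y ∈ A, Φ i • x ≠ Φ j • y) : Dense (O Φ A) := by
  rw [Metric.dense_iff]
  intro h ε hε
  have hn : (0 : ℝ) < (d : ℝ) + 2 := by positivity
  obtain ⟨ψ, hψ, hψε, hψ0⟩ := hU (fun x i => h (Φ i • x))
    (continuous_pi fun i => h.continuous.comp (continuous_const_smul (Φ i)))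
    (ε / (d + 2)) (by positivity)
  have hcl : ∀ i, IsClosed ((fun x => Φ i • x) '' A) := fun i => hA.smul (Φ i)
  have hχ : ∀ i, ∃ f : C(K, ℝ), EqOn f 0 (⋃ j ∈ {j | j ≠ i}, (fun x => Φ j • x) '' A) ∧
      EqOn f 1 ((fun x => Φ i • x) '' A) ∧ ∀ x, f x ∈ Icc (0 : ℝ) 1 := by
    intro i
    refine exists_continuous_zero_one_of_isClosed ?_ (hcl i) ?_
    · exact (Set.toFinite _).isClosed_biUnion fun j _ => hcl j
    · rw [Set.disjoint_left]
      intro y hy hy'
      rw [mem_iUnion₂] at hy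
      obtain ⟨j, hj, x, hx, hxy⟩ := hy
      obtain ⟨x', hx', hxy'⟩ := hy'
      exact hd j i hj x hx x' hx' (hxy.trans hxy'.symm)
  choose χ hχ0 hχ1 hχ2 using hχ
  let δ : Fin (d + 1) → C(K, ℝ) := fun i =>
    ⟨fun y => ψ ((Φ i)⁻¹ • y) i - h y,
      ((continuous_apply i).comp (hψ.comp (continuous_const_smul (Φ i)⁻¹))).sub h.continuous⟩
  have hδ : ∀ i y, |δ i y| ≤ ε / (d + 2) := by
    intro i y
    have h1 := hψε ((Φ i)⁻¹ • y) i
    simp only [smul_inv_smul] at h1
    exact h1.le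
  refine ⟨h + ∑ i, χ i * δ i, ?_, ?_⟩
  · rw [Metric.mem_ball, dist_comm, ContinuousMap.dist_lt_iff hε]
    intro y
    rw [Real.dist_eq]
    have e : h y - (h + ∑ i, χ i * δ i) y = - ∑ i, χ i y * δ i y := by
      simp only [ContinuousMap.add_apply, ContinuousMap.sum_apply, ContinuousMap.mul_apply]
      ring
    rw [e, abs_neg]
    calc |∑ i, χ i y * δ i y| ≤ ∑ i : Fin (d + 1), |χ i y * δ i y| :=
          Finset.abs_sum_le_sum_abs _ _
      _ ≤ ∑ _i : Fin (d + 1), ε / (d + 2) := by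
          refine Finset.sum_le_sum fun i _ => ?_
          rw [abs_mul]
          have h1 := hχ2 i y
          have h2 : |χ i y| ≤ 1 := by
            rw [abs_of_nonneg h1.1]; exact h1.2
          calc |χ i y| * |δ i y| ≤ 1 * (ε / (d + 2)) :=
                mul_le_mul h2 (hδ i y) (abs_nonneg _) zero_le_one
            _ = ε / (d + 2) := one_mul _
      _ = (d + 1) * (ε / (d + 2)) := by
          rw [Finset.sum_const, Finset.card_univ, Fintype.card_fin, nsmul_eq_mul]
          push_cast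
          ring
      _ < (d + 2) * (ε / (d + 2)) := by
          refine mul_lt_mul_of_pos_right (by linarith) (by positivity)
      _ = ε := by field_simp
  · intro x hx
    have h1 := hψ0 x
    obtain ⟨i, hi⟩ := Function.ne_iff.1 h1
    refine ⟨i, ?_⟩
    have h2 : (h + ∑ i, χ i * δ i) (Φ i • x) = ψ x i := by
      simp only [ContinuousMap.add_apply, ContinuousMap.sum_apply, ContinuousMap.mul_apply]
      rw [Finset.sum_eq_single i]
      · rw [hχ1 i ⟨x, hx, rfl⟩]
        simp only [δ, ContinuousMap.coe_mk, Pi.one_apply, inv_smul_smul]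
        ring
      · intro j _ hj
        rw [hχ0 j (mem_iUnion₂.2 ⟨i, hj.symm, x, hx, rfl⟩)]
        simp
      · intro h3
        exact absurd (Finset.mem_univ i) h3
    rw [h2]
    exact hi

theorem dense_O_univ (hU : Unst K d) (hfree : ∀ (g : G) (x : K), g • x = x → g = 1)
    (Φ : Fin (d + 1) → G) (hΦ : Function.Injective Φ) :
    Dense (O (K := K) Φ univ) := by
  -- local separation
  have hloc : ∀ x : K, ∃ A : Set K, A ∈ 𝓝 x ∧ IsClosed A ∧
      ∀ i j, i ≠ j → ∀ y ∈ A, ∀ z ∈ A, Φ i • y ≠ Φ j • z := by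
    intro x
    have hD : IsOpen (⋂ q : {q : Fin (d + 1) × Fin (d + 1) // q.1 ≠ q.2},
        {p : K × K | Φ q.1.1 • p.1 ≠ Φ q.1.2 • p.2}) := by
      refine isOpen_iInter_of_finite fun q => ?_
      exact isOpen_ne_fun ((continuous_const_smul _).comp continuous_fst)
        ((continuous_const_smul _).comp continuous_snd)
    have hx : (x, x) ∈ (⋂ q : {q : Fin (d + 1) × Fin (d + 1) // q.1 ≠ q.2},
        {p : K × K | Φ q.1.1 • p.1 ≠ Φ q.1.2 • p.2}) := by
      rw [mem_iInter]
      rintro ⟨⟨i, j⟩, hij⟩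
      simp only [mem_setOf_eq]
      intro h1
      have h2 : ((Φ j)⁻¹ * Φ i) • x = x := by
        rw [mul_smul, h1, inv_smul_smul]
      have h3 := hfree _ _ h2
      exact hij (hΦ (inv_mul_eq_one.1 h3).symm)
    have h4 := hD.mem_nhds hx
    rw [nhds_prod_eq, Filter.mem_prod_same_iff] at h4
    obtain ⟨t, ht, htD⟩ := h4
    obtain ⟨A, hA, hAc, hAt⟩ := exists_mem_nhds_isClosed_subset ht
    refine ⟨A, hA, hAc, fun i j hij y hy z hz => ?_⟩
    have h5 := htD (mk_mem_prod (hAt hy) (hAt hz))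
    rw [mem_iInter] at h5
    exact h5 ⟨(i, j), hij⟩
  choose A hA hAc hAd using hloc
  obtain ⟨t, ht⟩ := isCompact_univ.elim_nhds_subcover A fun x _ => hA x
  have hsub : (⋂ x ∈ (t : Set K), O Φ (A x)) ⊆ O (K := K) Φ univ := by
    intro h hh y _
    have h1 := ht.2 (mem_univ y)
    rw [mem_iUnion₂] at h1
    obtain ⟨x, hx, hy⟩ := h1
    exact (mem_iInter₂.1 hh x hx) y hy
  refine Dense.mono hsub ?_
  exact dense_biInter_of_isOpen (fun x _ => isOpen_O Φ (A x) (hAc x)) t.countable_toSet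
    (fun x _ => dense_O hU Φ (A x) (hAc x) (hAd x))

theorem generic [Countable G] (hU : Unst K d)
    (hfree : ∀ (g : G) (x : K), g • x = x → g = 1) :
    Dense {h : C(K, ℝ) | ∀ x : K, {g : G | h (g • x) = 0}.Finite} := by
  have h1 : Dense (⋂ Φ : {Φ : Fin (d + 1) → G // Function.Injective Φ}, O (K := K) Φ.1 univ) :=
    dense_iInter_of_isOpen (fun Φ => isOpen_O Φ.1 univ isClosed_univ)
      (fun Φ => dense_O_univ hU hfree Φ.1 Φ.2)
  refine h1.mono ?_
  intro h hh x
  by_contra hinf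
  have hinf' : {g : G | h (g • x) = 0}.Infinite := hinf
  let e := hinf'.natEmbedding
  have h2 := mem_iInter.1 hh ⟨fun i => (e i.val : G), fun i j hij =>
    Fin.ext (e.injective (Subtype.ext hij))⟩
  obtain ⟨i, hi⟩ := h2 x (mem_univ x)
  exact hi (e i.val).2

end

end GEN

theorem t_GEN : S_GEN := by
  intro G K _ _ _ _ _ _ _ d hfree hU
  have hgen := GEN.generic (G := G) hU hfree
  -- the pairs of basic sets
  let S : Set (Set K × Set K) := {p | p.1 ∈ countableBasis K ∧ p.2 ∈ countableBasis K ∧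
    closure p.1 ⊆ p.2}
  have hS : S.Countable := by
    refine ((countable_countableBasis K).prod (countable_countableBasis K)).mono ?_
    rintro p ⟨h1, h2, -⟩
    exact ⟨h1, h2⟩
  have hex : ∀ p : Set K × Set K, p ∈ S → ∃ h : C(K, ℝ), (∀ x : K, {g : G | h (g • x) = 0}.Finite) ∧
      p.1 ⊆ {x | 0 < h x} ∧ {x | 0 < h x} ⊆ p.2 := by
    rintro ⟨V, V'⟩ ⟨hV, hV', hVV⟩
    obtain ⟨f, hf0, hf1, -⟩ := exists_continuous_zero_one_of_isClosed
      (isOpen_of_mem_countableBasis hV').isClosed_compl (isClosed_closure (s := V))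
      (by
        rw [Set.disjoint_left]
        intro x hx hx'
        exact hx (hVV hx'))
    obtain ⟨h, hh, hdist⟩ := hgen.exists_dist_lt (f - ContinuousMap.const K (1 / 2 : ℝ))
      (by norm_num : (0 : ℝ) < 1 / 4)
    rw [ContinuousMap.dist_lt_iff (by norm_num)] at hdist
    refine ⟨h, hh, fun x hx => ?_, fun x hx => ?_⟩
    · have h1 := hdist x
      have h2 : f x = 1 := hf1 (subset_closure hx)
      rw [Real.dist_eq, ContinuousMap.sub_apply, h2, ContinuousMap.const_apply] at h1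
      have h3 := (abs_lt.1 h1).2
      show 0 < h x
      linarith
    · by_contra hx'
      have h1 := hdist x
      have h2 : f x = 0 := hf0 hx'
      rw [Real.dist_eq, ContinuousMap.sub_apply, h2, ContinuousMap.const_apply] at h1
      have h3 := (abs_lt.1 h1).1
      have h4 : 0 < h x := hx
      linarith
  choose! h hfin hsub1 hsub2 using hex
  let T : Set (Set K) := insert ∅ ((fun p => {x | 0 < h p x}) '' S)
  have hT : T.Countable := (hS.image _).insert _
  obtain ⟨B, hB⟩ := hT.exists_eq_range (insert_nonempty _ _)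
  refine ⟨B, ?_, ?_⟩
  · rw [← hB]
    refine isTopologicalBasis_of_isOpen_of_nhds ?_ ?_
    · rintro u (rfl | ⟨p, -, rfl⟩)
      · exact isOpen_empty
      · exact isOpen_lt continuous_const (h p).continuous
    · intro x W hx hW
      obtain ⟨V', hV', hxV', hV'W⟩ := (isBasis_countableBasis K).exists_subset_of_mem_open hx hW
      obtain ⟨V, hV, hxV, hVV'⟩ := (isBasis_countableBasis K).exists_closure_subset
        ((isOpen_of_mem_countableBasis hV').mem_nhds hxV')
      have hp : (V, V') ∈ S := ⟨hV, hV', hVV'⟩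
      exact ⟨_, Or.inr ⟨(V, V'), hp, rfl⟩, hsub1 _ hp hxV, (hsub2 _ hp).trans hV'W⟩
  · intro n x
    have h1 : B n ∈ T := by rw [hB]; exact ⟨n, rfl⟩
    rcases h1 with h1 | ⟨p, hp, h1⟩
    · rw [h1, frontier_empty]
      simp
    · rw [← h1]
      refine (hfin p hp x).subset ?_
      intro g hg
      have h2 := frontier_lt_subset_eq continuous_const (h p).continuous hg
      exact h2.symm

end Pool.Agent.N480.CS
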